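import Pool.Agent.Helper884_MultiScale.Zero

/-!
# Ordinal sums of posets of height at most two
-/

set_option autoImplicit false

namespace Pool.Agent.Helper884_MultiScale

open Finset
open Pool.Agent.Helper884_ChainCount (pigeon chain_of_no_red lev lev_mono lev_disj mem_lev)

section Emb

variable {V : Type*} [DecidableEq V] {P : Type*} [PartialOrder P]

/-- The part of `P` below level `i` embeds into the members of `F` strictly inside `z`. -/
def Emb (F : Finset (Finset V)) (h : P → ℕ) (i : ℕ) (z : Finset V) : Prop :=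
  ∃ f : P → Finset V, (∀ x, h x < i → f x ∈ F ∧ f x ⊂ z) ∧
    ∀ x y, h x < i → h y < i → (f x ⊆ f y ↔ x ≤ y)

lemma Emb.zero (F : Finset (Finset V)) (h : P → ℕ) (z : Finset V) : Emb F h 0 z :=
  ⟨fun _ => ∅, fun _ hx => absurd hx (by omega), fun _ _ hx => absurd hx (by omega)⟩

lemma Emb.mono {F : Finset (Finset V)} {h : P → ℕ} {i : ℕ} {z z' : Finset V}
    (he : Emb F h i z) (hz : z ⊆ z') : Emb F h i z' := by
  obtain ⟨f, h1, h2⟩ := he
  exact ⟨f, fun x hx => ⟨(h1 x hx).1, lt_of_lt_of_le (h1 x hx).2 hz⟩, h2⟩

/-- Extending an embedding by one level of height at most two. -/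
lemma Emb.step [Fintype P] {F G : Finset (Finset V)} (hGF : G ⊆ F) {h : P → ℕ}
    (h1 : ∀ x y, h x < h y → x < y) (h2 : ∀ x y z : P, x < y → y < z → h x < h z)
    {i m : ℕ} (hm : m = Fintype.card P + 2)
    (hcfg : Cfg m G) (hbelow : ∀ z ∈ G, Emb F h i z) : ∃ z ∈ G, Emb F h (i + 1) z := by
  classical
  obtain ⟨p, w, a, b, hp, hw, ha, hb, hpa, hbw, hac, hbc, hab⟩ := hcfg
  refine ⟨w, hw, ?_⟩
  obtain ⟨f, hf1, hf2⟩ := hbelow p hp
  let idx : P → Fin m := fun x => ⟨Fintype.equivFin P x, by
    have := (Fintype.equivFin P x).2; omega⟩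
  have hidx : Function.Injective idx := by
    intro x y hxy
    apply (Fintype.equivFin P).injective
    apply Fin.ext
    have h3 := congrArg (fun z : Fin m => (z : ℕ)) hxy
    simpa [idx] using h3
  have hainj : ∀ j j', a j ⊆ a j' → j = j' := by
    intro j j' hjj'
    have heq : a j = a j' := Finset.eq_of_subset_of_card_le hjj' (le_of_eq (hac j' j))
    have : a j' ⊆ b {j} := by rw [← heq]; exact (hab j {j}).2 (mem_singleton_self j)
    exact (mem_singleton.1 ((hab j' {j}).1 this)).symm
  have hbinj : ∀ S T, b S ⊆ b T → ∀ j ∈ S, j ∈ T := by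
    intro S T hST j hj
    exact (hab j T).1 (((hab j S).2 hj).trans hST)
  have haw : ∀ j, a j ⊂ w := by
    intro j
    have hsub : ∀ j, a j ⊆ w := fun j => ((hab j {j}).2 (mem_singleton_self j)).trans (hbw _)
    refine lt_of_le_of_ne (hsub j) ?_
    intro heq
    obtain ⟨j', hj'⟩ : ∃ j' : Fin m, j' ≠ j := by
      have hm2 : 2 ≤ m := by omega
      have : Nontrivial (Fin m) := Fin.nontrivial_iff_two_le.2 hm2
      exact exists_ne j
    apply hj'
    apply hainj
    rw [heq]
    exact hsub j'
  have hbw' : ∀ S j, j ∈ S → b S ⊂ w := by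
    intro S j hj
    refine lt_of_le_of_ne (hbw S) ?_
    intro heq
    have h3 : b ∅ = b S := by
      apply Finset.eq_of_subset_of_card_le
      · rw [heq]; exact hbw ∅
      · exact le_of_eq (hbc S ∅)
    have h4 := (hab j S).2 hj
    rw [← h3] at h4
    exact absurd ((hab j ∅).1 h4) (by simp)
  let low : P → Prop := fun x => ∃ y, h y = i ∧ x < y
  let Dn : P → Finset (Fin m) := fun x => (univ.filter (fun y => h y = i ∧ y ≤ x)).image idx
  have hDn : ∀ x y, h y = i → (idx y ∈ Dn x ↔ y ≤ x) := by
    intro x y hy
    simp only [Dn, mem_image, mem_filter, mem_univ, true_and]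
    constructor
    · rintro ⟨y', ⟨-, hy'⟩, heq⟩
      rwa [← hidx heq]
    · intro hyx
      exact ⟨y, ⟨hy, hyx⟩, rfl⟩
  refine ⟨fun x => if h x < i then f x else if low x then a (idx x) else b (Dn x), ?_, ?_⟩
  · intro x hx
    by_cases hxi : h x < i
    · simp only [hxi, if_true]
      have hpw : p ⊆ w := (hpa (idx x)).trans (haw _).subset
      exact ⟨(hf1 x hxi).1, lt_of_lt_of_le (hf1 x hxi).2 hpw⟩
    · have hxe : h x = i := by omega
      simp only [hxi, if_false]
      split_ifs with hlow
      · exact ⟨hGF (ha _), haw _⟩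
      · exact ⟨hGF (hb _), hbw' _ (idx x) ((hDn x x hxe).2 le_rfl)⟩
  · intro x y hx hy
    -- members at level `i` contain `p`
    have hpsub : ∀ x, h x = i → p ⊆ (if low x then a (idx x) else b (Dn x)) := by
      intro x hxe
      split_ifs with hlow
      · exact hpa _
      · exact (hpa (idx x)).trans ((hab _ _).2 ((hDn x x hxe).2 le_rfl))
    by_cases hxi : h x < i
    · by_cases hyi : h y < i
      · simp only [hxi, hyi, if_true]
        exact hf2 x y hxi hyi
      · have hye : h y = i := by omega
        simp only [hxi, hyi, if_true, if_false]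
        constructor
        · intro _
          exact (h1 x y (by omega)).le
        · intro _
          exact (hf1 x hxi).2.subset.trans (hpsub y hye)
    · have hxe : h x = i := by omega
      by_cases hyi : h y < i
      · simp only [hxi, hyi, if_true, if_false]
        constructor
        · intro hsub
          exfalso
          have h3 : p ⊆ f y := (hpsub x hxe).trans hsub
          exact absurd h3 (hf1 y hyi).2.2
        · intro hxy
          exact absurd (h1 y x (by omega)) (not_lt_of_ge hxy)
      · have hye : h y = i := by omega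
        simp only [hxi, hyi, if_false]
        by_cases hlx : low x
        · by_cases hly : low y
          · simp only [hlx, hly, if_true]
            constructor
            · intro hsub
              rw [hidx (hainj _ _ hsub)]
            · intro hxy
              rcases hxy.eq_or_lt with rfl | hlt
              · exact Subset.refl _
              · exfalso
                obtain ⟨z, hz, hyz⟩ := hly
                have := h2 x y z hlt hyz
                omega
          · simp only [hlx, hly, if_true, if_false]
            rw [hab, hDn y x hxe]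
        · by_cases hly : low y
          · simp only [hlx, hly, if_true, if_false]
            constructor
            · intro hsub
              exfalso
              have h3 : a (idx x) ⊆ b (Dn x) := (hab _ _).2 ((hDn x x hxe).2 le_rfl)
              have h4 := hidx (hainj _ _ (h3.trans hsub))
              rw [h4] at hlx
              exact hlx hly
            · intro hxy
              exfalso
              rcases hxy.eq_or_lt with rfl | hlt
              · exact hlx hly
              · exact hlx ⟨y, hye, hlt⟩
          · simp only [hlx, hly, if_false]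
            constructor
            · intro hsub
              exact (hDn y x hxe).1 (hbinj _ _ hsub _ ((hDn x x hxe).2 le_rfl))
            · intro hxy
              rcases hxy.eq_or_lt with rfl | hlt
              · exact Subset.refl _
              · exact absurd ⟨y, hye, hlt⟩ hlx

end Emb

section LevelCount

/-- Chains restricted to one level. -/
lemma level_count {N m r : ℕ} [DecidableEq (ℕ → Finset (Fin N))] {D c : ℝ} (hD : 1 ≤ D) (hc0 : 0 ≤ c)
    (hbd : ∀ F : Finset (Finset (Fin N)), ¬ Cfg m F →
      ∀ (u w : Finset (Fin N)) (S : Finset (ℕ → Finset (Fin N))),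
      (∀ v ∈ S, IsCh F r u w v) → (S.card : ℝ) ≤ D * 2 ^ (c * ((w \ u).card : ℝ)))
    (F : Finset (Finset (Fin N))) (hF : ¬ Cfg m F) (S : Finset (ℕ → Finset (Fin N)))
    (hmono : ∀ v ∈ S, Monotone v) (lam : ℕ → ℕ) (hlam : ∀ t t', t ≤ t' → t' ≤ r → lam t ≤ lam t')
    (i : ℕ) (hmem : ∀ v ∈ S, ∀ t ≤ r, lam t = i → v t ∈ F) :
    ((S.image (fun v : ℕ → Finset (Fin N) => (fun t => if t ≤ r ∧ lam t = i then v t else ∅))).card
      : ℝ) ≤ 4 ^ N * (D * 2 ^ (c * N)) := by
  classical
  have hpow1 : (1 : ℝ) ≤ 2 ^ (c * (N : ℝ)) := by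
    apply Real.one_le_rpow (by norm_num)
    positivity
  have h41 : (1 : ℝ) ≤ 4 ^ N := one_le_pow₀ (by norm_num)
  have hR1 : (1 : ℝ) ≤ 4 ^ N * (D * 2 ^ (c * (N : ℝ))) := by
    have : (1 : ℝ) ≤ D * 2 ^ (c * (N : ℝ)) := one_le_mul_of_one_le_of_one_le hD hpow1
    exact one_le_mul_of_one_le_of_one_le h41 this
  by_cases hex : ∃ t, t ≤ r ∧ lam t = i
  · -- the interval of the level
    let a := Nat.find hex
    have ha := Nat.find_spec hex
    let b := Nat.findGreatest (fun t => lam t = i) r
    have hb : lam b = i := by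
      have := Nat.findGreatest_spec (P := fun t => lam t = i) ha.1 ha.2
      exact this
    have hbr : b ≤ r := Nat.findGreatest_le r
    have hmin : ∀ t, t ≤ r → lam t = i → a ≤ t := fun t h1 h2 => Nat.find_min' hex ⟨h1, h2⟩
    have hmax : ∀ t, t ≤ r → lam t = i → t ≤ b := fun t h1 h2 => Nat.le_findGreatest h1 h2
    have hab : a ≤ b := hmax a ha.1 ha.2
    let φ : (ℕ → Finset (Fin N)) → (ℕ → Finset (Fin N)) := fun v t => v (max a (min t b))
    have hφF : ∀ v ∈ S, ∀ t, φ v t ∈ F := by
      intro v hv t
      have h1 : max a (min t b) ≤ b := by omega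
      have h2 : a ≤ max a (min t b) := by omega
      apply hmem v hv _ (by omega)
      apply le_antisymm
      · rw [← hb]; exact hlam _ _ h1 hbr
      · have : lam a ≤ lam (max a (min t b)) := hlam _ _ h2 (by omega)
        have h3 : lam a = i := ha.2
        omega
    have himg : (S.image (fun v : ℕ → Finset (Fin N) =>
        (fun t => if t ≤ r ∧ lam t = i then v t else ∅)))
        = (S.image φ).image (fun v => (fun t => if t ≤ r ∧ lam t = i then v t else ∅)) := by
      rw [Finset.image_image]
      apply Finset.image_congr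
      intro v hv
      funext t
      simp only [Function.comp, φ]
      split_ifs with h
      · have h1 := hmin t h.1 h.2
        have h2 := hmax t h.1 h.2
        congr 1; omega
      · rfl
    rw [himg]
    have hcard1 : ((S.image φ).card : ℝ) ≤ 4 ^ N * (D * 2 ^ (c * (N : ℝ))) := by
      rcases (S.image φ).eq_empty_or_nonempty with he | hne
      · rw [he, card_empty, Nat.cast_zero]; linarith
      obtain ⟨⟨u, w⟩, -, hpg⟩ := pigeon (S.image φ) (univ : Finset (Finset (Fin N) × Finset (Fin N)))
        (fun v => (v 0, v r)) (fun _ _ => mem_univ _) ⟨(∅, ∅), mem_univ _⟩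
      have h5 : (((S.image φ).filter (fun v => (v 0, v r) = (u, w))).card : ℝ)
          ≤ D * 2 ^ (c * (N : ℝ)) := by
        refine (hbd F hF u w _ ?_).trans ?_
        · intro v' hv'
          rw [mem_filter, mem_image] at hv'
          obtain ⟨⟨v, hv, rfl⟩, heq⟩ := hv'
          simp only [Prod.mk.injEq] at heq
          refine ⟨?_, heq.1, ?_, fun t => hφF v hv t⟩
          · intro t t' htt
            apply hmono v hv
            omega
          · intro t ht
            rw [← heq.2]
            simp only [φ]
            congr 1; omega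
        · apply mul_le_mul_of_nonneg_left _ (by linarith)
          apply Real.rpow_le_rpow_of_exponent_le (by norm_num)
          apply mul_le_mul_of_nonneg_left _ hc0
          have : (w \ u).card ≤ N := by
            have := card_le_univ (w \ u)
            simpa using this
          exact_mod_cast this
      have h6 : (univ : Finset (Finset (Fin N) × Finset (Fin N))).card = 4 ^ N := by
        rw [card_univ, Fintype.card_prod, Fintype.card_finset, Fintype.card_fin, ← mul_pow]
        norm_num
      rw [h6] at hpg
      calc ((S.image φ).card : ℝ)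
          ≤ ((4 ^ N * ((S.image φ).filter (fun v => (v 0, v r) = (u, w))).card : ℕ) : ℝ) := by
            exact_mod_cast hpg
        _ = 4 ^ N * (((S.image φ).filter (fun v => (v 0, v r) = (u, w))).card : ℝ) := by
            push_cast; rfl
        _ ≤ _ := mul_le_mul_of_nonneg_left h5 (by positivity)
    refine le_trans ?_ hcard1
    exact_mod_cast card_image_le
  · have h1 : (S.image (fun v : ℕ → Finset (Fin N) =>
        (fun t => if t ≤ r ∧ lam t = i then v t else ∅))).card ≤ 1 := by
      rw [Finset.card_le_one]
      intro f hf f' hf'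
      obtain ⟨v, _, rfl⟩ := mem_image.1 hf
      obtain ⟨v', _, rfl⟩ := mem_image.1 hf'
      funext t
      have : ¬ (t ≤ r ∧ lam t = i) := fun h => hex ⟨t, h⟩
      simp only [this, if_false]
    have h2 : ((S.image (fun v : ℕ → Finset (Fin N) =>
        (fun t => if t ≤ r ∧ lam t = i then v t else ∅))).card : ℝ) ≤ 1 := by exact_mod_cast h1
    linarith

end LevelCount

/-- The number of chains in a coloured cube without red `Q_n` and without a blue copy of an ordinal
sum of posets of height at most two. -/
theorem ramsey_count {P : Type*} [PartialOrder P] [Fintype P] (h : P → ℕ)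
    (h1 : ∀ x y, h x < h y → x < y) (h2 : ∀ x y z : P, x < y → y < z → h x < h z)
    {n k r L : ℕ} (hL : ∀ x, h x < L) {D c : ℝ} (hD : 1 ≤ D) (hc0 : 0 ≤ c)
    (hbd : ∀ F : Finset (Finset (Fin (n + k))), ¬ Cfg (Fintype.card P + 2) F →
      ∀ (u w : Finset (Fin (n + k))) (S : Finset (ℕ → Finset (Fin (n + k)))),
      (∀ v ∈ S, IsCh F r u w v) → (S.card : ℝ) ≤ D * 2 ^ (c * ((w \ u).card : ℝ)))
    (col : Finset (Fin (n + k)) → Bool)
    (hblue : ¬ ∃ f : P ↪o Finset (Fin (n + k)), ∀ x, col (f x) = true)
    (hred : ¬ ∃ g : Finset (Fin n) ↪o Finset (Fin (n + k)), ∀ x, col (g x) = false) :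
    (r : ℝ) ^ k ≤ ((L : ℝ) + 1) ^ (r + 1) *
      (4 ^ (n + k) * (D * 2 ^ (c * ((n + k : ℕ) : ℝ)))) ^ (L + 1) := by
  classical
  set F : Finset (Finset (Fin (n + k))) := univ.filter (fun z => col z = true) with hF
  have hFmem : ∀ z, z ∈ F ↔ col z = true := by
    intro z; simp [hF]
  let g : Finset (Fin (n + k)) → ℕ := fun z => Nat.findGreatest (fun i => Emb F h i z) L
  have hgL : ∀ z, g z ≤ L := fun z => Nat.findGreatest_le L
  have hgspec : ∀ z, Emb F h (g z) z := fun z =>
    Nat.findGreatest_spec (P := fun i => Emb F h i z) (Nat.zero_le L) (Emb.zero F h z)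
  have hgmono : ∀ z z', z ⊆ z' → g z ≤ g z' := fun z z' hz =>
    Nat.le_findGreatest (hgL z) ((hgspec z).mono hz)
  let G : ℕ → Finset (Finset (Fin (n + k))) := fun i => F.filter (fun z => g z = i)
  have hG : ∀ i ≤ L, ¬ Cfg (Fintype.card P + 2) (G i) := by
    intro i hi hcfg
    obtain ⟨z, hz, hemb⟩ := Emb.step (F := F) (filter_subset _ _) h1 h2 rfl hcfg (by
      intro z hz
      have hz' := (mem_filter.1 hz).2
      have := hgspec z
      rwa [hz'] at this)
    have hzi : g z = i := (mem_filter.1 hz).2
    rcases hi.lt_or_eq with hlt | heq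
    · have : i + 1 ≤ g z := Nat.le_findGreatest (by omega) hemb
      omega
    · apply hblue
      obtain ⟨f, hf1, hf2⟩ := hemb
      have hxi : ∀ x, h x < i + 1 := fun x => by have := hL x; omega
      refine ⟨OrderEmbedding.ofMapLEIff f (fun x y => hf2 x y (hxi x) (hxi y)), ?_⟩
      intro x
      exact (hFmem _).1 (hf1 x (hxi x)).1
  -- the chains
  have hch : ∀ gg : Fin k → Fin r, ∃ U : ℕ → Finset (Fin (n + k)), Monotone U ∧
      (∀ i, U i ⊆ univ.map (Fin.castAddEmb (n := n) k)) ∧
      ∀ i, i ≤ r → col (U i ∪ lev gg i) = true := fun gg =>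
    chain_of_no_red col (Fin.castAddEmb (n := n) k) hred (lev gg) (lev_mono gg) r (lev_disj gg)
  choose U hU1 hU2 hU3 using hch
  let w : (Fin k → Fin r) → ℕ → Finset (Fin (n + k)) :=
    fun gg i => U gg (min i r) ∪ lev gg (min i r)
  have hw1 : ∀ gg, Monotone (w gg) := fun gg i i' hi =>
    union_subset_union (hU1 gg (min_le_min_right r hi)) (lev_mono gg (min_le_min_right r hi))
  have hw2 : ∀ gg i, w gg i ∈ F := fun gg i => (hFmem _).2 (hU3 gg _ (min_le_right i r))
  have hw3 : Function.Injective w := by
    have key : ∀ (gg gg' : Fin k → Fin r), w gg = w gg' → ∀ j, (gg' j : ℕ) ≤ (gg j : ℕ) := by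
      intro gg gg' hgg j
      have hlt := (gg j).2
      have hmin : min ((gg j : ℕ) + 1) r = (gg j : ℕ) + 1 := by omega
      have h3 : Fin.natAdd n j ∈ w gg ((gg j : ℕ) + 1) := by
        simp only [w, hmin]
        exact mem_union_right _ ((mem_lev gg _ j).2 (by omega))
      rw [hgg] at h3
      simp only [w, hmin] at h3
      rcases mem_union.1 h3 with h4 | h4
      · exfalso
        have h5 := hU2 gg' _ h4
        simp only [mem_map, mem_univ, true_and] at h5
        obtain ⟨j', hj'⟩ := h5
        have := congrArg Fin.val hj'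
        simp at this
        omega
      · have := (mem_lev gg' _ j).1 h4
        omega
    intro gg gg' hgg
    funext j
    exact Fin.ext (le_antisymm (key gg' gg hgg.symm j) (key gg gg' hgg j))
  set S := (univ : Finset (Fin k → Fin r)).image w with hS
  have hScard : S.card = r ^ k := by
    rw [hS, card_image_of_injective _ hw3]
    simp
  have hSmono : ∀ v ∈ S, Monotone v := by
    intro v hv
    obtain ⟨gg, _, rfl⟩ := mem_image.1 hv
    exact hw1 gg
  have hSF : ∀ v ∈ S, ∀ i, v i ∈ F := by
    intro v hv i
    obtain ⟨gg, _, rfl⟩ := mem_image.1 hv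
    exact hw2 gg i
  have hSconst : ∀ v ∈ S, ∀ i, r ≤ i → v i = v r := by
    intro v hv i hi
    obtain ⟨gg, _, rfl⟩ := mem_image.1 hv
    simp only [w]
    rw [min_eq_right hi, min_self]
  -- fix the level sequence
  let code : (ℕ → Finset (Fin (n + k))) → (Fin (r + 1) → ℕ) := fun v i => g (v i)
  obtain ⟨q, -, hpg⟩ := pigeon S (Fintype.piFinset (fun _ : Fin (r + 1) => range (L + 1))) code (by
    intro v _
    simp only [Fintype.mem_piFinset, mem_range, code]
    intro i
    have := hgL (v i)
    omega) ⟨fun _ => 0, by simp⟩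
  set S1 := S.filter (fun v => code v = q) with hS1
  have hpg' : S.card ≤ (L + 1) ^ (r + 1) * S1.card := by
    refine le_trans hpg (Nat.mul_le_mul_right _ (le_of_eq ?_))
    rw [Fintype.card_piFinset]; simp
  have hS1card : (S1.card : ℝ) ≤ (4 ^ (n + k) * (D * 2 ^ (c * ((n + k : ℕ) : ℝ)))) ^ (L + 1) := by
    rcases S1.eq_empty_or_nonempty with he | ⟨v₀, hv₀⟩
    · rw [he, card_empty, Nat.cast_zero]; positivity
    let lam : ℕ → ℕ := fun t => g (v₀ t)
    have hS1' : ∀ v ∈ S1, v ∈ S ∧ ∀ t ≤ r, g (v t) = lam t := by
      intro v hv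
      refine ⟨(mem_filter.1 hv).1, ?_⟩
      intro t ht
      have h3 : code v = code v₀ := by rw [(mem_filter.1 hv).2, (mem_filter.1 hv₀).2]
      exact congrFun h3 ⟨t, by omega⟩
    have hprod := card_le_prod_image S1
      (fun i (v : ℕ → Finset (Fin (n + k))) => (fun t => if t ≤ r ∧ lam t = i then v t else ∅))
      (L + 1) (by
        intro v hv v' hv' heq
        funext t
        have key : ∀ t ≤ r, v t = v' t := by
          intro t ht
          have h3 := congrFun (heq (lam t) (by have := hgL (v₀ t); simp only [lam]; omega)) t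
          simpa [ht] using h3
        rcases Nat.lt_or_ge r t with hlt | hge
        · rw [hSconst v (hS1' v hv).1 t hlt.le, hSconst v' (hS1' v' hv').1 t hlt.le]
          exact key r le_rfl
        · exact key t hge)
    calc (S1.card : ℝ) ≤ ((∏ i ∈ range (L + 1), (S1.image
          (fun (v : ℕ → Finset (Fin (n + k))) =>
            (fun t => if t ≤ r ∧ lam t = i then v t else ∅))).card : ℕ) : ℝ) := by
            exact_mod_cast hprod
      _ = ∏ i ∈ range (L + 1), ((S1.image
          (fun (v : ℕ → Finset (Fin (n + k))) =>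
            (fun t => if t ≤ r ∧ lam t = i then v t else ∅))).card : ℝ) := by push_cast; rfl
      _ ≤ ∏ i ∈ range (L + 1), (4 ^ (n + k) * (D * 2 ^ (c * ((n + k : ℕ) : ℝ)))) := by
          apply Finset.prod_le_prod (fun _ _ => Nat.cast_nonneg _)
          intro i hi
          have hiL : i ≤ L := by have := mem_range.1 hi; omega
          exact level_count hD hc0 hbd (G i) (hG i hiL) S1
            (fun v hv => hSmono v (hS1' v hv).1) lam
            (fun t t' htt _ => hgmono _ _ (hSmono v₀ (hS1' v₀ hv₀).1 htt)) i
            (fun v hv t ht hlt => mem_filter.2 ⟨hSF v (hS1' v hv).1 t, by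
              rw [(hS1' v hv).2 t ht, hlt]⟩)
      _ = _ := by rw [prod_const, card_range]
  calc (r : ℝ) ^ k = ((S.card : ℕ) : ℝ) := by rw [hScard]; push_cast; rfl
    _ ≤ (((L + 1) ^ (r + 1) * S1.card : ℕ) : ℝ) := by exact_mod_cast hpg'
    _ = ((L : ℝ) + 1) ^ (r + 1) * (S1.card : ℝ) := by push_cast; rfl
    _ ≤ _ := mul_le_mul_of_nonneg_left hS1card (by positivity)

end Pool.Agent.Helper884_MultiScale
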