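import Mathlib

/-!
# Chains in families without a shattering configuration: basic lemmas
-/

set_option autoImplicit false

namespace Pool.Agent.Helper884_MultiScale

open Finset

section Generic

/-- A family is at most as large as the product of the numbers of its coordinate values. -/
lemma card_le_prod_image {ι Y : Type*} [DecidableEq Y] (S : Finset ι) (f : ℕ → ι → Y) (r : ℕ)
    (hinj : ∀ a ∈ S, ∀ a' ∈ S, (∀ i < r, f i a = f i a') → a = a') :
    S.card ≤ ∏ i ∈ range r, (S.image (f i)).card := by
  classical
  have h1 : S.card ≤ (Fintype.piFinset (fun i : Fin r => S.image (f i))).card := by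
    apply Finset.card_le_card_of_injOn (fun a => fun i : Fin r => f i a)
    · intro a ha
      have ha' : a ∈ S := ha
      simp only [Finset.mem_coe, Fintype.mem_piFinset]
      intro i
      exact mem_image_of_mem _ ha'
    · intro a ha a' ha' h
      apply hinj a ha a' ha'
      intro i hi
      exact congrFun h ⟨i, hi⟩
  rw [Fintype.card_piFinset] at h1
  rw [← Fin.prod_univ_eq_prod_range (fun i => (S.image (f i)).card) r]
  exact h1

/-- Counting the leaves of a tree. -/
lemma tree_count {ι Y : Type*} [DecidableEq Y] (r : ℕ) : ∀ (S : Finset ι) (f : ι → ℕ → Y)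
    (b : ℕ → ℕ)
    (_hb : ∀ i < r, ∀ a ∈ S,
      ((S.filter (fun a' => ∀ i' < i, f a' i' = f a i')).image (fun a' => f a' i)).card ≤ b i)
    (_hinj : ∀ a ∈ S, ∀ a' ∈ S, (∀ i < r, f a i = f a' i) → a = a'),
    S.card ≤ ∏ i ∈ range r, b i := by
  classical
  induction r with
  | zero =>
    intro S f b hb hinj
    simp only [range_zero, prod_empty]
    rw [Finset.card_le_one]
    intro a ha a' ha'
    exact hinj a ha a' ha' (by intro i hi; omega)
  | succ r ih =>
    intro S f b hb hinj
    rcases S.eq_empty_or_nonempty with rfl | ⟨a₀, ha₀⟩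
    · simp
    have h0 : (S.image (fun a' => f a' 0)).card ≤ b 0 := by
      have := hb 0 (by omega) a₀ ha₀
      simpa using this
    have hfib : ∀ y ∈ S.image (fun a' => f a' 0), (S.filter (fun a => f a 0 = y)).card
        ≤ ∏ i ∈ range r, b (i + 1) := by
      intro y hy
      apply ih (S.filter (fun a => f a 0 = y)) (fun a i => f a (i + 1)) (fun i => b (i + 1))
      · intro i hi a ha
        refine le_trans (card_le_card ?_) (hb (i + 1) (by omega) a (mem_filter.1 ha).1)
        apply image_subset_image
        intro a' ha'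
        simp only [mem_filter] at ha ha' ⊢
        refine ⟨ha'.1.1, ?_⟩
        intro i' hi'
        rcases Nat.eq_zero_or_pos i' with rfl | hpos
        · rw [ha'.1.2, ha.2]
        · obtain ⟨j, rfl⟩ : ∃ j, i' = j + 1 := ⟨i' - 1, by omega⟩
          exact ha'.2 j (by omega)
      · intro a ha a' ha' h
        simp only [mem_filter] at ha ha'
        apply hinj a ha.1 a' ha'.1
        intro i hi
        rcases Nat.eq_zero_or_pos i with rfl | hpos
        · rw [ha.2, ha'.2]
        · obtain ⟨j, rfl⟩ : ∃ j, i = j + 1 := ⟨i - 1, by omega⟩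
          exact h j (by omega)
    rw [Finset.prod_range_succ']
    calc S.card = ∑ y ∈ S.image (fun a' => f a' 0), (S.filter (fun a => f a 0 = y)).card :=
          Finset.card_eq_sum_card_image _ _
      _ ≤ ∑ y ∈ S.image (fun a' => f a' 0), ∏ i ∈ range r, b (i + 1) := sum_le_sum hfib
      _ = (S.image (fun a' => f a' 0)).card * ∏ i ∈ range r, b (i + 1) := by simp
      _ ≤ b 0 * ∏ i ∈ range r, b (i + 1) := Nat.mul_le_mul_right _ h0
      _ = (∏ i ∈ range r, b (i + 1)) * b 0 := by ring

/-- Greedy choice of a cheap set of times hitting almost all large sets. -/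
lemma greedy {X : Type*} [DecidableEq X] (r : ℕ) (A : Finset X) (Nx : X → Finset ℕ)
    (hN : ∀ x ∈ A, Nx x ⊆ range r) (T : ℝ) (hT : 0 < T) (hA : ∀ x ∈ A, T ≤ ((Nx x).card : ℝ))
    (cost : ℕ → ℝ) (hc : ∀ i, 0 ≤ cost i) (n η : ℝ) (hn : (A.card : ℝ) ≤ n) (hη : 0 < η) :
    ∃ I ⊆ range r, ((A.filter (fun x => Disjoint (Nx x) I)).card : ℝ) ≤ η * n ∧
      ∑ i ∈ I, cost i ≤ (∑ i ∈ range r, cost i) / (T * η) := by
  classical
  have hn0 : 0 ≤ n := le_trans (Nat.cast_nonneg _) hn
  set Z := ∑ i ∈ range r, cost i with hZ
  have hZ0 : 0 ≤ Z := sum_nonneg (fun i _ => hc i)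
  rcases hn0.eq_or_lt with hn1 | hnpos
  · refine ⟨∅, by simp, ?_, ?_⟩
    · have : (A.card : ℝ) ≤ 0 := by rw [hn1]; exact hn
      have h2 : ((A.filter (fun x => Disjoint (Nx x) ∅)).card : ℝ) ≤ A.card := by
        exact_mod_cast card_filter_le _ _
      have h3 : η * n = 0 := by rw [← hn1]; ring
      rw [h3]; linarith
    · simp only [sum_empty]; positivity
  rcases hZ0.eq_or_lt with hZ1 | hZpos
  · refine ⟨range r, Subset.refl _, ?_, ?_⟩
    · have : A.filter (fun x => Disjoint (Nx x) (range r)) = ∅ := by
        rw [Finset.filter_eq_empty_iff]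
        intro x hx hd
        have h1 : Nx x = ∅ := by
          rw [← Finset.disjoint_self_iff_empty]
          exact hd.mono_right (hN x hx)
        have h2 := hA x hx
        rw [h1] at h2
        simp at h2
        linarith
      rw [this]
      simp only [card_empty, Nat.cast_zero]
      positivity
    · rw [← hZ, ← hZ1]; simp
  · let ψ : Finset ℕ → ℝ := fun I =>
      Z * ((A.filter (fun x => Disjoint (Nx x) I)).card : ℝ) + T * η * n * ∑ i ∈ I, cost i
    obtain ⟨I, hI, hmin⟩ := (range r).powerset.exists_min_image ψ ⟨∅, by simp⟩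
    rw [mem_powerset] at hI
    refine ⟨I, hI, ?_, ?_⟩
    · set U := A.filter (fun x => Disjoint (Nx x) I) with hU
      have hstep : ∀ i ∈ range r, Z * ((U.filter (fun x => i ∈ Nx x)).card : ℝ)
          ≤ T * η * n * cost i := by
        intro i hi
        have h1 := hmin (insert i I) (by rw [mem_powerset]; exact insert_subset hi hI)
        have h2 : ((A.filter (fun x => Disjoint (Nx x) (insert i I))).card : ℝ)
            = (U.card : ℝ) - ((U.filter (fun x => i ∈ Nx x)).card : ℝ) := by
          have h3 : A.filter (fun x => Disjoint (Nx x) (insert i I))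
              = U.filter (fun x => ¬ i ∈ Nx x) := by
            ext x
            simp only [hU, mem_filter, Finset.disjoint_insert_right]
            tauto
          rw [h3]
          have h4 := Finset.card_filter_add_card_filter_not (s := U) (fun x => i ∈ Nx x)
          have h5 : (((U.filter (fun x => i ∈ Nx x)).card : ℝ)
              + ((U.filter (fun x => ¬ i ∈ Nx x)).card : ℝ)) = (U.card : ℝ) := by
            exact_mod_cast h4
          linarith
        have h6 : ∑ j ∈ insert i I, cost j ≤ cost i + ∑ j ∈ I, cost j := by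
          by_cases hiI : i ∈ I
          · rw [Finset.insert_eq_of_mem hiI]
            linarith [hc i]
          · rw [Finset.sum_insert hiI]
        have h7 : T * η * n * ∑ j ∈ insert i I, cost j
            ≤ T * η * n * (cost i + ∑ j ∈ I, cost j) :=
          mul_le_mul_of_nonneg_left h6 (by positivity)
        simp only [ψ] at h1
        rw [h2] at h1
        rw [← hU] at h1
        nlinarith
      have hsum : Z * ∑ i ∈ range r, ((U.filter (fun x => i ∈ Nx x)).card : ℝ)
          ≤ T * η * n * Z := by
        rw [Finset.mul_sum]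
        calc ∑ i ∈ range r, Z * ((U.filter (fun x => i ∈ Nx x)).card : ℝ)
            ≤ ∑ i ∈ range r, T * η * n * cost i := sum_le_sum hstep
          _ = T * η * n * Z := by rw [← Finset.mul_sum]
      have hdc : ∑ i ∈ range r, ((U.filter (fun x => i ∈ Nx x)).card : ℝ)
          = ∑ x ∈ U, ((Nx x).card : ℝ) := by
        have h1 : ∑ i ∈ range r, (U.filter (fun x => i ∈ Nx x)).card
            = ∑ x ∈ U, (Nx x).card := by
          simp only [Finset.card_filter]
          rw [Finset.sum_comm]
          apply Finset.sum_congr rfl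
          intro x hx
          rw [← Finset.card_filter]
          congr 1
          ext i
          simp only [mem_filter]
          constructor
          · intro h; exact h.2
          · intro h; exact ⟨hN x (mem_filter.1 hx).1 h, h⟩
        exact_mod_cast h1
      have hlow : T * (U.card : ℝ) ≤ ∑ x ∈ U, ((Nx x).card : ℝ) := by
        calc T * (U.card : ℝ) = ∑ x ∈ U, T := by simp [mul_comm]
          _ ≤ ∑ x ∈ U, ((Nx x).card : ℝ) :=
              sum_le_sum (fun x hx => hA x (mem_filter.1 hx).1)
      rw [hdc] at hsum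
      have h8 : Z * (T * (U.card : ℝ)) ≤ Z * (T * (η * n)) := by
        calc Z * (T * (U.card : ℝ)) ≤ Z * ∑ x ∈ U, ((Nx x).card : ℝ) :=
              mul_le_mul_of_nonneg_left hlow hZ0
          _ ≤ T * η * n * Z := hsum
          _ = Z * (T * (η * n)) := by ring
      exact le_of_mul_le_mul_left (le_of_mul_le_mul_left h8 hZpos) hT
    · have h1 := hmin ∅ (by simp)
      simp only [ψ, disjoint_empty_right, filter_true, sum_empty, mul_zero, add_zero] at h1
      have h2 : T * η * n * ∑ i ∈ I, cost i ≤ Z * n := by
        have h3 : Z * (A.card : ℝ) ≤ Z * n := mul_le_mul_of_nonneg_left hn hZ0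
        have h4 : 0 ≤ Z * ((A.filter (fun x => Disjoint (Nx x) I)).card : ℝ) := by positivity
        linarith
      rw [le_div_iff₀ (by positivity)]
      have h5 : n * ((∑ i ∈ I, cost i) * (T * η)) ≤ n * Z := by linarith
      exact le_of_mul_le_mul_left h5 hnpos

end Generic

section Defs

variable {V : Type*} [DecidableEq V]

/-- Weak chains of length `r` from `u` to `w` inside the family `F`. -/
def IsCh (F : Finset (Finset V)) (r : ℕ) (u w : Finset V) (v : ℕ → Finset V) : Prop :=
  Monotone v ∧ v 0 = u ∧ (∀ i, r ≤ i → v i = w) ∧ ∀ i, v i ∈ F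

/-- The family contains a bottom set, `m` equal sized sets, all their shattering sets and a top. -/
def Cfg (m : ℕ) (F : Finset (Finset V)) : Prop :=
  ∃ (p w : Finset V) (a : Fin m → Finset V) (b : Finset (Fin m) → Finset V),
    p ∈ F ∧ w ∈ F ∧ (∀ i, a i ∈ F) ∧ (∀ S, b S ∈ F) ∧ (∀ i, p ⊆ a i) ∧ (∀ S, b S ⊆ w) ∧
    (∀ i j, (a i).card = (a j).card) ∧ (∀ S T, (b S).card = (b T).card) ∧
    ∀ i S, a i ⊆ b S ↔ i ∈ S

/-- Sauer-Shelah for traces of a family without the configuration. -/
lemma trace_bound {m : ℕ} (F : Finset (Finset V)) (hF : ¬ Cfg m F) (p w : Finset V)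
    (hp : p ∈ F) (hw : w ∈ F) (x y : ℕ) (Z : Finset (Finset V))
    (hZ : ∀ z ∈ Z, z ∈ F ∧ z.card = y ∧ z ⊆ w) :
    (Z.image (fun z => (F.filter (fun a => a.card = x ∧ p ⊆ a ∧ a ⊆ w)).filter
      (fun a => a ⊆ z))).card
      ≤ ∑ k ∈ range m, (F.filter (fun a => a.card = x ∧ p ⊆ a ∧ a ⊆ w)).card.choose k := by
  classical
  set A := F.filter (fun a => a.card = x ∧ p ⊆ a ∧ a ⊆ w) with hA
  set 𝒯 := Z.image (fun z => A.filter (fun a => a ⊆ z)) with hT
  have h1 : 𝒯.shatterer ⊆ (range m).biUnion (fun k => powersetCard k A) := by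
    intro Y hY
    rw [mem_shatterer] at hY
    have hYA : Y ⊆ A := by
      obtain ⟨u, hu, huY⟩ := hY (Subset.refl Y)
      rw [hT, mem_image] at hu
      obtain ⟨z, hz, rfl⟩ := hu
      intro a ha
      rw [← huY] at ha
      exact (mem_filter.1 (mem_inter.1 ha).2).1
    have hcard : Y.card < m := by
      by_contra hge
      push Not at hge
      apply hF
      obtain ⟨Y', hY'Y, hY'⟩ := Finset.exists_subset_card_eq hge
      let e : Fin m ≃ Y' := (finCongr hY'.symm).trans Y'.equivFin.symm
      let a : Fin m → Finset V := fun i => (e i : Finset V)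
      have hainj : Function.Injective a := by
        intro i j hij
        exact e.injective (Subtype.ext hij)
      have haY : ∀ i, a i ∈ Y := fun i => hY'Y (e i).2
      have hb : ∀ S : Finset (Fin m), ∃ z ∈ Z, ∀ i, a i ⊆ z ↔ i ∈ S := by
        intro S
        have hsub : S.image a ⊆ Y := by
          intro c hc
          obtain ⟨i, _, rfl⟩ := mem_image.1 hc
          exact haY i
        obtain ⟨u, hu, huY⟩ := hY hsub
        rw [hT, mem_image] at hu
        obtain ⟨z, hz, rfl⟩ := hu
        refine ⟨z, hz, ?_⟩
        intro i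
        have h2 : a i ∈ Y ∩ A.filter (fun a => a ⊆ z) ↔ a i ∈ S.image a := by rw [huY]
        have h3 : a i ∈ S.image a ↔ i ∈ S := by
          constructor
          · intro h
            obtain ⟨j, hj, hji⟩ := mem_image.1 h
            rwa [← hainj hji]
          · intro h; exact mem_image_of_mem _ h
        have h4 : a i ∈ Y ∩ A.filter (fun a => a ⊆ z) ↔ a i ⊆ z := by
          simp only [mem_inter, mem_filter]
          constructor
          · intro h; exact h.2.2
          · intro h; exact ⟨haY i, hYA (haY i), h⟩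
        rw [← h4, h2, h3]
      choose b hb1 hb2 using hb
      have haA : ∀ i, a i ∈ F ∧ (a i).card = x ∧ p ⊆ a i ∧ a i ⊆ w := by
        intro i
        exact mem_filter.1 (hYA (haY i))
      exact ⟨p, w, a, b, hp, hw, fun i => (haA i).1, fun S => (hZ _ (hb1 S)).1,
        fun i => (haA i).2.2.1, fun S => (hZ _ (hb1 S)).2.2,
        fun i j => by rw [(haA i).2.1, (haA j).2.1],
        fun S T => by rw [(hZ _ (hb1 S)).2.1, (hZ _ (hb1 T)).2.1],
        fun i S => hb2 S i⟩
    rw [mem_biUnion]
    exact ⟨Y.card, mem_range.2 hcard, mem_powersetCard.2 ⟨hYA, rfl⟩⟩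
  calc 𝒯.card ≤ 𝒯.shatterer.card := Finset.card_le_card_shatterer _
    _ ≤ ((range m).biUnion (fun k => powersetCard k A)).card := card_le_card h1
    _ ≤ ∑ k ∈ range m, (powersetCard k A).card := card_biUnion_le
    _ = ∑ k ∈ range m, A.card.choose k := by simp

end Defs

end Pool.Agent.Helper884_MultiScale
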