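import Pool.Agent.Helper884_MultiScale.Encode
import Pool.Agent.Helper884_ChainCount.Count

/-!
# The counting bound at one scale
-/

set_option autoImplicit false

namespace Pool.Agent.Helper884_MultiScale

open Finset
open Pool.Agent.Helper884_ChainCount (pigeon)

lemma prod_choose (r : ℕ) : ∀ (n : ℕ → ℕ),
    ∏ i ∈ range r, (n i).choose (n (i + 1)) ≤ (r + 1) ^ (n 0) := by
  induction r with
  | zero => intro n; simp
  | succ r ih =>
    intro n
    rw [Finset.prod_range_succ']
    have h1 := ih (fun i => n (i + 1))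
    have h2 : (n 0).choose (n 1) * (r + 1) ^ (n 1) ≤ (r + 1 + 1) ^ (n 0) := by
      rcases Nat.lt_or_ge (n 0) (n 1) with hlt | hge
      · rw [Nat.choose_eq_zero_of_lt hlt]; simp
      · have hb := add_pow (r + 1) 1 (n 0)
        calc (n 0).choose (n 1) * (r + 1) ^ (n 1)
            = (r + 1) ^ (n 1) * 1 ^ (n 0 - n 1) * (n 0).choose (n 1) := by
              rw [one_pow]; ring
          _ ≤ ∑ m ∈ range (n 0 + 1), (r + 1) ^ m * 1 ^ (n 0 - m) * (n 0).choose m :=
              Finset.single_le_sum (f := fun m => (r + 1) ^ m * 1 ^ (n 0 - m) * (n 0).choose m)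
                (fun i _ => Nat.zero_le _) (by simp only [mem_range]; omega)
          _ = (r + 1 + 1) ^ (n 0) := by rw [hb]; simp
    calc (∏ i ∈ range r, (n (i + 1)).choose (n (i + 1 + 1))) * (n 0).choose (n (0 + 1))
        ≤ (r + 1) ^ (n 1) * (n 0).choose (n 1) := Nat.mul_le_mul_right _ h1
      _ = (n 0).choose (n 1) * (r + 1) ^ (n 1) := by ring
      _ ≤ (r + 1 + 1) ^ (n 0) := h2

lemma sum_choose_le {m A c : ℕ} (hc : 1 ≤ c) (hA : A ≤ c) :
    ∑ k ∈ range m, A.choose k ≤ m * c ^ m := by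
  calc ∑ k ∈ range m, A.choose k ≤ ∑ k ∈ range m, c ^ m := by
        apply sum_le_sum
        intro k hk
        calc A.choose k ≤ c.choose k := Nat.choose_le_choose k hA
          _ ≤ c ^ k := Nat.choose_le_pow _ _
          _ ≤ c ^ m := Nat.pow_le_pow_right hc (le_of_lt (mem_range.1 hk))
    _ = m * c ^ m := by simp

variable {V : Type*} [DecidableEq V] {F : Finset (Finset V)} {r s t : ℕ} {u w : Finset V}

/-- The number of possible reachable sets from a fixed set. -/
lemma XX_count {m : ℕ} (hF : ¬ Cfg m F) (hwF : w ∈ F)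
    (S : Finset (ℕ → Finset V)) (hS : ∀ v ∈ S, IsCh F r u w v)
    (p : ℕ → ℕ) (hp : ∀ v ∈ S, ∀ i, (v i).card = p i) (i : ℕ) (v : ℕ → Finset V) (hv : v ∈ S) :
    ((S.filter (fun v' => v' i = v i)).image (fun v' => XX F v' t i)).card
      ≤ m * ((w.card - p i).choose (p (i + 1) - p i)) ^ m := by
  classical
  set A := F.filter (fun a => a.card = p (i + 1) ∧ v i ⊆ a ∧ a ⊆ w) with hA
  set G := S.filter (fun v' => v' i = v i) with hG
  set Z := G.image (fun v' => v' (t * (i / t) + t)) with hZ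
  have h1 : G.image (fun v' => XX F v' t i) =
      (Z.image (fun z => A.filter (fun a => a ⊆ z))).image (fun τ => τ.sup id \ v i) := by
    rw [hZ, Finset.image_image, Finset.image_image]
    apply Finset.image_congr
    intro v' hv'
    have hv'' : v' ∈ G := hv'
    rw [hG, mem_filter] at hv''
    obtain ⟨hv'S, hv'i⟩ := hv''
    have hsub := (hS v' hv'S).sub (t * (i / t) + t)
    simp only [Function.comp, XX]
    rw [hv'i]
    congr 2
    ext a
    rw [hA]
    simp only [mem_filter]
    rw [hp v' hv'S (i + 1)]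
    constructor
    · rintro ⟨h1, h2, h3, h4⟩
      exact ⟨⟨h1, h2, h3, h4.trans hsub⟩, h4⟩
    · rintro ⟨⟨h1, h2, h3, h4⟩, h5⟩
      exact ⟨h1, h2, h3, h5⟩
  rw [h1]
  refine le_trans card_image_le ?_
  have hvi : (v i).card = p i := hp v hv i
  have hviw : v i ⊆ w := (hS v hv).sub i
  refine le_trans (trace_bound F hF (v i) w ((hS v hv).2.2.2 i) hwF (p (i + 1))
    (p (t * (i / t) + t)) Z ?_) ?_
  · intro z hz
    rw [hZ, mem_image] at hz
    obtain ⟨v', hv', rfl⟩ := hz
    rw [hG, mem_filter] at hv'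
    exact ⟨(hS v' hv'.1).2.2.2 _, hp v' hv'.1 _, (hS v' hv'.1).sub _⟩
  · apply sum_choose_le
    · apply Nat.choose_pos
      have h2 : p (i + 1) ≤ w.card := by
        rw [← hp v hv (i + 1)]
        exact card_le_card ((hS v hv).sub _)
      omega
    · have h3 : A.card ≤ (powersetCard (p (i + 1) - p i) (w \ v i)).card := by
        apply Finset.card_le_card_of_injOn (fun a => a \ v i)
        · intro a ha
          have ha' : a ∈ A := ha
          rw [hA, mem_filter] at ha'
          simp only [Finset.mem_coe, mem_powersetCard]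
          refine ⟨sdiff_subset_sdiff ha'.2.2.2 (Subset.refl _), ?_⟩
          rw [card_sdiff_of_subset ha'.2.2.1, ha'.2.1, hvi]
        · intro a ha a' ha' h
          have ha1 : a ∈ A := ha
          have ha'1 : a' ∈ A := ha'
          rw [hA, mem_filter] at ha1 ha'1
          simp only at h
          rw [← Finset.sdiff_union_of_subset ha1.2.2.1, h,
            Finset.sdiff_union_of_subset ha'1.2.2.1]
      rw [card_powersetCard, card_sdiff_of_subset hviw, hvi] at h3
      exact h3

/-- Elements with many availabilities at the coarse scale and few at the fine scale. -/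
def Mid (F : Finset (Finset V)) (v : ℕ → Finset V) (r s t T : ℕ) (u w : Finset V) : Finset V :=
  (w \ u).filter (fun x => T ≤ (NN F v r s x).card ∧ (NN F v r t x).card < T)

theorem one_scale {m T : ℕ} (hm : 1 ≤ m) (hs : 0 < s) (ht : 0 < t) (hT : 0 < T)
    (hF : ¬ Cfg m F) (hwF : w ∈ F)
    (S : Finset (ℕ → Finset V)) (hS : ∀ v ∈ S, IsCh F r u w v)
    (p : ℕ → ℕ) (hp : ∀ v ∈ S, ∀ i, (v i).card = p i)
    (q : ℕ → Finset V) (hq : ∀ v ∈ S, ∀ i, v (s * i) = q i)
    (α η : ℝ) (hη : 0 < η)
    (hα : ∀ v ∈ S, ((Mid F v r s t T u w).card : ℝ) ≤ α * (w \ u).card) :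
    (S.card : ℝ) ≤ 2 ^ r * 4 ^ (w \ u).card *
      ((s : ℝ) ^ ((α + η) * (w \ u).card) * (t * T) ^ (w \ u).card) *
      ((m : ℝ) ^ r * (((r : ℝ) + 1) ^ (w \ u).card) ^ m) ^ (1 / (T * η)) := by
  classical
  rcases S.eq_empty_or_nonempty with rfl | hSne
  · simp only [card_empty, Nat.cast_zero]; positivity
  set n := (w \ u).card with hn
  set bd : ℕ → ℕ := fun i => m * ((w.card - p i).choose (p (i + 1) - p i)) ^ m with hbd
  obtain ⟨v₀, hv₀⟩ := hSne
  have hple : ∀ i, p i ≤ w.card := by
    intro i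
    rw [← hp v₀ hv₀ i]
    exact card_le_card ((hS v₀ hv₀).sub _)
  have hpmono : ∀ i, p i ≤ p (i + 1) := by
    intro i
    rw [← hp v₀ hv₀ i, ← hp v₀ hv₀ (i + 1)]
    exact card_le_card ((hS v₀ hv₀).1 (by omega))
  have hbd1 : ∀ i, 1 ≤ bd i := by
    intro i
    have h1 : 0 < (w.card - p i).choose (p (i + 1) - p i) := by
      apply Nat.choose_pos
      have := hple (i + 1)
      omega
    have h2 : 0 < ((w.card - p i).choose (p (i + 1) - p i)) ^ m := Nat.pow_pos h1
    exact Nat.mul_pos (by omega) h2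
  let cost : ℕ → ℝ := fun i => Real.logb 2 (bd i)
  have hcost : ∀ i, 0 ≤ cost i := by
    intro i
    apply Real.logb_nonneg (by norm_num)
    exact_mod_cast hbd1 i
  have hcost2 : ∀ i, (2 : ℝ) ^ (cost i) = (bd i : ℝ) := by
    intro i
    apply Real.rpow_logb (by norm_num) (by norm_num)
    exact_mod_cast hbd1 i
  -- the hitting sets
  let At : (ℕ → Finset V) → Finset V := fun v => (w \ u).filter (fun x => T ≤ (NN F v r t x).card)
  have hgr : ∀ v, ∃ I ⊆ range r,
      (((At v).filter (fun x => Disjoint (NN F v r t x) I)).card : ℝ) ≤ η * n ∧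
      ∑ i ∈ I, cost i ≤ (∑ i ∈ range r, cost i) / (T * η) := by
    intro v
    apply greedy r (At v) (NN F v r t) (fun x _ => filter_subset _ _) (T : ℝ)
      (by exact_mod_cast hT) (fun x hx => by exact_mod_cast (mem_filter.1 hx).2) cost hcost
      (n : ℝ) η _ hη
    exact_mod_cast card_filter_le _ _
  choose Iv hI1 hI2 hI3 using hgr
  let Bv : (ℕ → Finset V) → Finset V := fun v => Mid F v r s t T u w ∪
    (At v).filter (fun x => Disjoint (NN F v r t x) (Iv v))
  have hBsub : ∀ v, Bv v ⊆ w \ u := fun v =>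
    union_subset (filter_subset _ _) ((filter_subset _ _).trans (filter_subset _ _))
  have hBcard : ∀ v ∈ S, ((Bv v).card : ℝ) ≤ (α + η) * n := by
    intro v hv
    have h1 : ((Bv v).card : ℝ) ≤ (Mid F v r s t T u w).card +
        ((At v).filter (fun x => Disjoint (NN F v r t x) (Iv v))).card := by
      exact_mod_cast card_union_le _ _
    have h2 := hα v hv
    have h3 := hI2 v
    linarith
  -- first pigeonhole
  let code1 : (ℕ → Finset V) → Finset ℕ × Finset V × Finset V := fun v => (Iv v, Bv v, At v)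
  obtain ⟨⟨I, B, D⟩, -, hcard1⟩ := pigeon S
    ((range r).powerset ×ˢ (w \ u).powerset ×ˢ (w \ u).powerset) code1 (by
      intro v hv
      simp only [code1, mem_product, mem_powerset]
      exact ⟨hI1 v, hBsub v, filter_subset _ _⟩) ⟨(∅, ∅, ∅), by simp⟩
  set S1 := S.filter (fun v => code1 v = (I, B, D)) with hS1
  have hS1' : ∀ v ∈ S1, v ∈ S ∧ Iv v = I ∧ Bv v = B ∧ At v = D := by
    intro v hv
    rw [hS1, mem_filter] at hv
    simp only [code1, Prod.mk.injEq] at hv
    exact hv
  have hS1ne : S1.Nonempty := by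
    rw [← Finset.card_pos]
    by_contra h0
    have h0' : S1.card = 0 := by omega
    rw [h0', mul_zero] at hcard1
    have : 0 < S.card := Finset.card_pos.2 ⟨v₀, hv₀⟩
    omega
  have hcard1' : S.card ≤ 2 ^ r * 4 ^ n * S1.card := by
    refine le_trans hcard1 (Nat.mul_le_mul_right _ (le_of_eq ?_))
    rw [card_product, card_product, card_powerset, card_powerset, card_range, ← hn]
    have : (4 : ℕ) ^ n = 2 ^ n * 2 ^ n := by
      rw [← mul_pow]; norm_num
    rw [this]
  -- second pigeonhole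
  let size : V → ℕ := fun x => if x ∈ B then s else if x ∈ D then t else T
  let lab : (ℕ → Finset V) → V → ℕ := fun v x =>
    if x ∈ B then ent v x % s else if x ∈ D then ent v x % t else (NN F v r s x).card
  have hlab : ∀ v ∈ S1, ∀ x ∈ w \ u, lab v x < size x := by
    intro v hv x hx
    obtain ⟨hvS, hvI, hvB, hvD⟩ := hS1' v hv
    simp only [lab, size]
    split_ifs with h1 h2
    · exact Nat.mod_lt _ hs
    · exact Nat.mod_lt _ ht
    · by_contra hge
      push Not at hge
      rw [← hvD] at h2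
      rw [← hvB] at h1
      have h3 : (NN F v r t x).card < T := by
        by_contra h4
        push Not at h4
        exact h2 (mem_filter.2 ⟨hx, h4⟩)
      exact h1 (mem_union_left _ (mem_filter.2 ⟨hx, hge, h3⟩))
  let code2 : (ℕ → Finset V) → ({x // x ∈ w \ u} → ℕ) := fun v x => lab v x.1
  obtain ⟨g, -, hcard2⟩ := pigeon S1
    (Fintype.piFinset (fun x : {x // x ∈ w \ u} => range (size x.1))) code2 (by
      intro v hv
      simp only [Fintype.mem_piFinset, mem_range]
      intro x
      exact hlab v hv x.1 x.2) (by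
      obtain ⟨v, hv⟩ := hS1ne
      refine ⟨code2 v, ?_⟩
      simp only [Fintype.mem_piFinset, mem_range]
      intro x
      exact hlab v hv x.1 x.2)
  set S2 := S1.filter (fun v => code2 v = g) with hS2
  have hS2' : ∀ v ∈ S2, v ∈ S1 ∧ ∀ x (hx : x ∈ w \ u), lab v x = g ⟨x, hx⟩ := by
    intro v hv
    rw [hS2, mem_filter] at hv
    exact ⟨hv.1, fun x hx => congrFun hv.2 ⟨x, hx⟩⟩
  have hS2S : ∀ v ∈ S2, v ∈ S := fun v hv => (hS1' v (hS2' v hv).1).1
  have hcardpi : (Fintype.piFinset (fun x : {x // x ∈ w \ u} => range (size x.1))).card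
      ≤ s ^ B.card * (t * T) ^ n := by
    rw [Fintype.card_piFinset]
    simp only [card_range]
    rw [Finset.prod_coe_sort (w \ u) (fun x => size x)]
    calc ∏ x ∈ w \ u, size x ≤ ∏ x ∈ w \ u, ((if x ∈ B then s else 1) * (t * T)) := by
          apply Finset.prod_le_prod (fun _ _ => Nat.zero_le _)
          intro x hx
          simp only [size]
          split_ifs with h1 h2
          · exact Nat.le_mul_of_pos_right _ (Nat.mul_pos ht hT)
          · rw [one_mul]; exact Nat.le_mul_of_pos_right _ hT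
          · rw [one_mul]; exact Nat.le_mul_of_pos_left _ ht
      _ = s ^ ((w \ u).filter (fun x => x ∈ B)).card * (t * T) ^ n := by
          rw [Finset.prod_mul_distrib, Finset.prod_const, ← hn, Finset.prod_ite]
          simp
      _ ≤ s ^ B.card * (t * T) ^ n := by
          apply Nat.mul_le_mul_right
          apply Nat.pow_le_pow_right hs
          apply card_le_card
          intro x hx
          exact (mem_filter.1 hx).2
  have hcore := core_count (F := F) (r := r) (s := s) (t := t) (u := u) (w := w) S2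
    (fun v hv => hS v (hS2S v hv)) hs ht p (fun v hv => hp v (hS2S v hv)) q
    (fun v hv => hq v (hS2S v hv)) I B D (fun x => if h : x ∈ w \ u then g ⟨x, h⟩ else 0)
    (by
      intro v hv x hx hxB
      simp only [hx, dif_pos]
      rw [← (hS2' v hv).2 x hx]
      simp only [lab, hxB, if_true])
    (by
      intro v hv x hx hxB hxD
      obtain ⟨hvS, hvI, hvB, hvD⟩ := hS1' v (hS2' v hv).1
      refine ⟨?_, ?_⟩
      · simp only [hx, dif_pos]
        rw [← (hS2' v hv).2 x hx]
        simp only [lab, hxB, if_false, hxD, if_true]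
      · rw [← hvB] at hxB
        rw [← hvD] at hxD
        have h1 : ¬ Disjoint (NN F v r t x) (Iv v) := fun hd =>
          hxB (mem_union_right _ (mem_filter.2 ⟨hxD, hd⟩))
        rw [Finset.not_disjoint_iff] at h1
        obtain ⟨i, hi, hiI⟩ := h1
        rw [hvI] at hiI
        exact ⟨i, hiI, (mem_filter.1 hi).2⟩)
    (by
      intro v hv x hx hxB hxD
      simp only [hx, dif_pos]
      rw [← (hS2' v hv).2 x hx]
      simp only [lab, hxB, if_false, hxD])
    bd (by
      intro i hi v hv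
      exact XX_count hF hwF S2 (fun v hv => hS v (hS2S v hv)) p
        (fun v hv => hp v (hS2S v hv)) i v hv)
  -- real estimates
  obtain ⟨v₁, hv₁⟩ := hS1ne
  obtain ⟨hv₁S, hv₁I, hv₁B, hv₁D⟩ := hS1' v₁ hv₁
  have hIr : I ⊆ range r := by rw [← hv₁I]; exact hI1 v₁
  have hprodI : (∏ i ∈ range r, (if i ∈ I then bd i else 1) : ℕ) = ∏ i ∈ I, bd i := by
    rw [Finset.prod_ite_mem, Finset.inter_eq_right.2 hIr]
  have hprod2 : ((∏ i ∈ I, bd i : ℕ) : ℝ) = 2 ^ (∑ i ∈ I, cost i) := by
    rw [Real.rpow_sum_of_pos (by norm_num : (0 : ℝ) < 2)]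
    push_cast
    apply Finset.prod_congr rfl
    intro i _
    rw [hcost2]
  have hprod3 : (2 : ℝ) ^ (∑ i ∈ range r, cost i) ≤ (m : ℝ) ^ r * (((r : ℝ) + 1) ^ n) ^ m := by
    rw [Real.rpow_sum_of_pos (by norm_num : (0 : ℝ) < 2)]
    have h1 : ∏ i ∈ range r, bd i ≤ m ^ r * ((r + 1) ^ n) ^ m := by
      simp only [hbd]
      rw [Finset.prod_mul_distrib, Finset.prod_const, card_range, Finset.prod_pow]
      apply Nat.mul_le_mul_left
      apply Nat.pow_le_pow_left
      have h2 := prod_choose r (fun i => w.card - p i)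
      have h3 : w.card - p 0 = n := by
        rw [← hp v₀ hv₀ 0, (hS v₀ hv₀).2.1, hn, card_sdiff_of_subset]
        have := (hS v₀ hv₀).sub 0
        rwa [(hS v₀ hv₀).2.1] at this
      simp only [h3] at h2
      refine le_trans (le_of_eq ?_) h2
      apply Finset.prod_congr rfl
      intro i _
      rw [← Nat.choose_symm_of_eq_add]
      have h4 := hple (i + 1)
      have h5 := hpmono i
      omega
    calc ∏ i ∈ range r, (2 : ℝ) ^ cost i = ((∏ i ∈ range r, bd i : ℕ) : ℝ) := by
          push_cast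
          apply Finset.prod_congr rfl
          intro i _
          rw [hcost2]
      _ ≤ ((m ^ r * ((r + 1) ^ n) ^ m : ℕ) : ℝ) := by exact_mod_cast h1
      _ = (m : ℝ) ^ r * (((r : ℝ) + 1) ^ n) ^ m := by push_cast; ring
  have hcostI : (2 : ℝ) ^ (∑ i ∈ I, cost i)
      ≤ ((m : ℝ) ^ r * (((r : ℝ) + 1) ^ n) ^ m) ^ (1 / ((T : ℝ) * η)) := by
    have h1 : ∑ i ∈ I, cost i ≤ (∑ i ∈ range r, cost i) * (1 / (T * η)) := by
      rw [mul_one_div, ← hv₁I]; exact hI3 v₁
    calc (2 : ℝ) ^ (∑ i ∈ I, cost i) ≤ 2 ^ ((∑ i ∈ range r, cost i) * (1 / (T * η))) :=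
          Real.rpow_le_rpow_of_exponent_le (by norm_num) h1
      _ = (2 ^ (∑ i ∈ range r, cost i)) ^ (1 / (T * η)) := by
          rw [Real.rpow_mul (by norm_num)]
      _ ≤ _ := Real.rpow_le_rpow (by positivity) hprod3 (by positivity)
  have hBreal : ((s ^ B.card : ℕ) : ℝ) ≤ (s : ℝ) ^ ((α + η) * n) := by
    rw [Nat.cast_pow, ← Real.rpow_natCast]
    apply Real.rpow_le_rpow_of_exponent_le
    · exact_mod_cast hs
    · rw [← hv₁B]; exact hBcard v₁ hv₁S
  have hS1card : (S1.card : ℝ) ≤ ((s : ℝ) ^ ((α + η) * n) * (t * T) ^ n) * (S2.card : ℝ) := by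
    calc (S1.card : ℝ) ≤ ((s ^ B.card * (t * T) ^ n * S2.card : ℕ) : ℝ) := by
          exact_mod_cast le_trans hcard2 (Nat.mul_le_mul_right _ hcardpi)
      _ = ((s ^ B.card : ℕ) : ℝ) * (t * T) ^ n * S2.card := by push_cast; ring
      _ ≤ _ := by
          apply mul_le_mul_of_nonneg_right _ (Nat.cast_nonneg _)
          apply mul_le_mul_of_nonneg_right hBreal (by positivity)
  have hS2card : (S2.card : ℝ)
      ≤ ((m : ℝ) ^ r * (((r : ℝ) + 1) ^ n) ^ m) ^ (1 / ((T : ℝ) * η)) := by
    refine le_trans ?_ hcostI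
    rw [← hprod2, ← hprodI]
    exact_mod_cast hcore
  calc (S.card : ℝ) ≤ ((2 ^ r * 4 ^ n * S1.card : ℕ) : ℝ) := by exact_mod_cast hcard1'
    _ = 2 ^ r * 4 ^ n * (S1.card : ℝ) := by push_cast; ring
    _ ≤ 2 ^ r * 4 ^ n * (((s : ℝ) ^ ((α + η) * n) * (t * T) ^ n) * (S2.card : ℝ)) := by
        apply mul_le_mul_of_nonneg_left hS1card (by positivity)
    _ ≤ 2 ^ r * 4 ^ n * (((s : ℝ) ^ ((α + η) * n) * (t * T) ^ n) *
        ((m : ℝ) ^ r * (((r : ℝ) + 1) ^ n) ^ m) ^ (1 / ((T : ℝ) * η))) := by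
        apply mul_le_mul_of_nonneg_left _ (by positivity)
        apply mul_le_mul_of_nonneg_left hS2card (by positivity)
    _ = _ := by ring

end Pool.Agent.Helper884_MultiScale
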