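import Pool.Agent.Helper884_MultiScale.Basic

/-!
# The multiscale encoding of chains
-/

set_option autoImplicit false

namespace Pool.Agent.Helper884_MultiScale

open Finset

variable {V : Type*} [DecidableEq V]

/-- The set of elements which can be reached by a member of `F` of the right size between `v i` and
the end of the block of length `s` containing `i`. -/
def XX (F : Finset (Finset V)) (v : ℕ → Finset V) (s i : ℕ) : Finset V :=
  ((F.filter (fun a => a.card = (v (i + 1)).card ∧ v i ⊆ a ∧ a ⊆ v (s * (i / s) + s))).sup id)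
    \ v i

lemma mem_XX {F : Finset (Finset V)} {v : ℕ → Finset V} {s i : ℕ} {x : V} :
    x ∈ XX F v s i ↔ x ∉ v i ∧
      ∃ a ∈ F, a.card = (v (i + 1)).card ∧ v i ⊆ a ∧ a ⊆ v (s * (i / s) + s) ∧ x ∈ a := by
  simp only [XX, mem_sdiff, mem_sup, mem_filter, id]
  constructor
  · rintro ⟨⟨a, ⟨h1, h2, h3, h4⟩, h5⟩, h6⟩
    exact ⟨h6, a, h1, h2, h3, h4, h5⟩
  · rintro ⟨h6, a, h1, h2, h3, h4, h5⟩
    exact ⟨⟨a, ⟨h1, h2, h3, h4⟩, h5⟩, h6⟩

/-- The times at which `x` can be reached. -/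
def NN (F : Finset (Finset V)) (v : ℕ → Finset V) (r s : ℕ) (x : V) : Finset ℕ :=
  (range r).filter (fun i => x ∈ XX F v s i)

/-- Entry time of `x`. -/
noncomputable def ent (v : ℕ → Finset V) (x : V) : ℕ := sInf {i | x ∈ v (i + 1)}

section EntLemmas

variable {F : Finset (Finset V)} {r s t : ℕ} {u w : Finset V} {v v' : ℕ → Finset V}

lemma IsCh.sub (h : IsCh F r u w v) (i : ℕ) : v i ⊆ w := by
  have h1 := h.1 (le_max_left i r)
  rw [h.2.2.1 _ (le_max_right i r)] at h1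
  exact h1

lemma IsCh.sup (h : IsCh F r u w v) (i : ℕ) : u ⊆ v i := by
  have h1 := h.1 (Nat.zero_le i)
  rw [h.2.1] at h1
  exact h1

lemma IsCh.ent_mem (h : IsCh F r u w v) {x : V} (hx : x ∈ w \ u) : x ∈ v (ent v x + 1) := by
  have h1 : (ent v x) ∈ {i | x ∈ v (i + 1)} := by
    apply Nat.sInf_mem
    refine ⟨r, ?_⟩
    simp only [Set.mem_setOf_eq]
    rw [h.2.2.1 _ (by omega)]
    exact (mem_sdiff.1 hx).1
  exact h1

lemma IsCh.ent_notMem (h : IsCh F r u w v) {x : V} (hx : x ∈ w \ u) : x ∉ v (ent v x) := by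
  intro hmem
  rcases Nat.eq_zero_or_pos (ent v x) with h0 | hpos
  · rw [h0, h.2.1] at hmem
    exact (mem_sdiff.1 hx).2 hmem
  · obtain ⟨j, hj⟩ : ∃ j, ent v x = j + 1 := ⟨ent v x - 1, by omega⟩
    rw [hj] at hmem
    have : ent v x ≤ j := Nat.sInf_le (show x ∈ v (j + 1) from hmem)
    omega

lemma IsCh.le_ent (h : IsCh F r u w v) {x : V} (hx : x ∈ w \ u) {i : ℕ} (hi : x ∉ v i) :
    i ≤ ent v x := by
  by_contra hlt
  push Not at hlt
  exact hi (h.1 hlt (h.ent_mem hx))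

lemma IsCh.ent_lt (h : IsCh F r u w v) {x : V} (hx : x ∈ w \ u) {i : ℕ} (hi : x ∈ v i) :
    ent v x < i := by
  by_contra hlt
  push Not at hlt
  exact h.ent_notMem hx (h.1 hlt hi)

lemma IsCh.ent_lt_r (h : IsCh F r u w v) {x : V} (hx : x ∈ w \ u) : ent v x < r := by
  apply h.ent_lt hx
  rw [h.2.2.1 _ le_rfl]
  exact (mem_sdiff.1 hx).1

lemma lt_blk (hs : 0 < s) (i : ℕ) : i < s * (i / s) + s := by
  have h1 := Nat.div_add_mod i s
  have h2 := Nat.mod_lt i hs
  omega

lemma blk_le (s i : ℕ) : s * (i / s) ≤ i := Nat.mul_div_le i s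

lemma div_eq_of_blk {s i e : ℕ} (hs : 0 < s) (h1 : s * (i / s) ≤ e)
    (h2 : e < s * (i / s) + s) : e / s = i / s := by
  apply Nat.div_eq_of_lt_le
  · rw [mul_comm]; exact h1
  · rw [Nat.succ_mul, mul_comm]; exact h2

lemma eq_of_div_mod {s a b : ℕ} (h1 : a / s = b / s) (h2 : a % s = b % s) : a = b := by
  rw [← Nat.div_add_mod a s, ← Nat.div_add_mod b s, h1, h2]

/-- Members of `XX` enter in the same block. -/
lemma IsCh.XX_blk (h : IsCh F r u w v) {x : V} (hx : x ∈ w \ u) (hs : 0 < s) {i : ℕ}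
    (hi : x ∈ XX F v s i) : i ≤ ent v x ∧ ent v x / s = i / s := by
  obtain ⟨h1, a, ha, ha1, ha2, ha3, ha4⟩ := mem_XX.1 hi
  have h2 := h.le_ent hx h1
  have h3 := h.ent_lt hx (ha3 ha4)
  exact ⟨h2, div_eq_of_blk hs ((blk_le s i).trans h2) h3⟩

lemma IsCh.self_mem_XX (h : IsCh F r u w v) {x : V} (hx : x ∈ w \ u) (hs : 0 < s) :
    x ∈ XX F v s (ent v x) := by
  rw [mem_XX]
  refine ⟨h.ent_notMem hx, v (ent v x + 1), h.2.2.2 _, rfl, h.1 (by omega), h.1 ?_,
    h.ent_mem hx⟩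
  have := lt_blk hs (ent v x)
  omega

lemma ent_eq_of_coarse (h : IsCh F r u w v) (h' : IsCh F r u w v') (hs : 0 < s)
    (hq : ∀ i, v (s * i) = v' (s * i)) {x : V} (hx : x ∈ w \ u)
    (hmod : ent v x % s = ent v' x % s) : ent v x = ent v' x := by
  have h1 : x ∉ v (s * (ent v x / s)) := by
    intro hmem
    exact h.ent_notMem hx (h.1 (blk_le s _) hmem)
  have h2 : x ∈ v (s * (ent v x / s) + s) := by
    have := lt_blk hs (ent v x)
    exact h.1 (by omega) (h.ent_mem hx)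
  rw [hq] at h1
  rw [← Nat.mul_succ, hq, Nat.mul_succ] at h2
  have h3 := h'.le_ent hx h1
  have h4 := h'.ent_lt hx h2
  exact eq_of_div_mod (div_eq_of_blk hs h3 h4).symm hmod

end EntLemmas

section Core

variable {F : Finset (Finset V)} {r s t : ℕ} {u w : Finset V}

lemma half_decode {v v' : ℕ → Finset V} (h : IsCh F r u w v) (h' : IsCh F r u w v')
    (hs : 0 < s) (ht : 0 < t)
    (hp : ∀ i, (v i).card = (v' i).card)
    (hq : ∀ i, v (s * i) = v' (s * i)) (I : Finset ℕ) (B D : Finset V) (lab : V → ℕ)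
    (hB : ∀ x ∈ w \ u, x ∈ B → ent v x % s = lab x)
    (hB' : ∀ x ∈ w \ u, x ∈ B → ent v' x % s = lab x)
    (hD : ∀ x ∈ w \ u, x ∉ B → x ∈ D → ent v x % t = lab x ∧ ∃ i ∈ I, x ∈ XX F v t i)
    (hD' : ∀ x ∈ w \ u, x ∉ B → x ∈ D → ent v' x % t = lab x ∧ ∃ i ∈ I, x ∈ XX F v' t i)
    (hC : ∀ x ∈ w \ u, x ∉ B → x ∉ D → (NN F v r s x).card = lab x)
    (hC' : ∀ x ∈ w \ u, x ∉ B → x ∉ D → (NN F v' r s x).card = lab x)
    (i₀ : ℕ) (heq : ∀ i ≤ i₀, v i = v' i) (hXX : ∀ i ≤ i₀, i ∈ I → XX F v t i = XX F v' t i) :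
    v (i₀ + 1) ⊆ v' (i₀ + 1) := by
  intro x hx
  by_cases hxi : x ∈ v i₀
  · rw [heq i₀ le_rfl] at hxi
    exact h'.1 (by omega) hxi
  have hxwu : x ∈ w \ u := by
    rw [mem_sdiff]
    exact ⟨h.sub _ hx, fun hxu => hxi (h.sup _ hxu)⟩
  have hent : ent v x = i₀ := by
    have h1 := h.le_ent hxwu hxi
    have h2 := h.ent_lt hxwu hx
    omega
  suffices hsuff : ent v' x = i₀ by
    have := h'.ent_mem hxwu
    rwa [hsuff] at this
  by_cases hxB : x ∈ B
  · have := ent_eq_of_coarse h h' hs hq hxwu (by rw [hB x hxwu hxB, hB' x hxwu hxB])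
    rw [← this, hent]
  by_cases hxD : x ∈ D
  · obtain ⟨h1, i, hiI, hiX⟩ := hD x hxwu hxB hxD
    obtain ⟨h1', -⟩ := hD' x hxwu hxB hxD
    obtain ⟨h2, h3⟩ := h.XX_blk hxwu ht hiX
    rw [hent] at h2 h3
    rw [hXX i h2 hiI] at hiX
    obtain ⟨h4, h5⟩ := h'.XX_blk hxwu ht hiX
    have h6 : ent v' x = ent v x := by
      apply eq_of_div_mod (s := t)
      · rw [hent, h5, h3]
      · rw [h1, h1']
    rw [h6, hent]
  · have h1 := hC x hxwu hxB hxD
    have h1' := hC' x hxwu hxB hxD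
    have hsame : ∀ i ≤ i₀, XX F v s i = XX F v' s i := by
      intro i hi
      unfold XX
      have h2 : v (s * (i / s) + s) = v' (s * (i / s) + s) := by
        rw [← Nat.mul_succ]; exact hq _
      rw [heq i hi, h2, hp (i + 1)]
    have hNN : NN F v r s x ⊆ NN F v' r s x := by
      intro i hi
      rw [NN, mem_filter] at hi ⊢
      refine ⟨hi.1, ?_⟩
      have h3 := (h.XX_blk hxwu hs hi.2).1
      rw [hent] at h3
      rw [← hsame i h3]
      exact hi.2
    have hNNeq : NN F v r s x = NN F v' r s x := by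
      apply Finset.eq_of_subset_of_card_le hNN
      rw [h1, h1']
    have h4 : ent v' x ∈ NN F v' r s x := by
      rw [NN, mem_filter]
      exact ⟨mem_range.2 (h'.ent_lt_r hxwu), h'.self_mem_XX hxwu hs⟩
    have h5 : i₀ ∈ NN F v r s x := by
      rw [NN, mem_filter]
      refine ⟨mem_range.2 ?_, ?_⟩
      · rw [← hent]; exact h.ent_lt_r hxwu
      · have := h.self_mem_XX (F := F) hxwu hs
        rwa [hent] at this
    rw [← hNNeq, NN, mem_filter] at h4
    rw [hNNeq, NN, mem_filter] at h5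
    have h6 := (h.XX_blk hxwu hs h4.2).1
    have h7 := (h'.XX_blk hxwu hs h5.2).1
    rw [hent] at h6
    omega

lemma core_count (S : Finset (ℕ → Finset V)) (hS : ∀ v ∈ S, IsCh F r u w v)
    (hs : 0 < s) (ht : 0 < t)
    (p : ℕ → ℕ) (hp : ∀ v ∈ S, ∀ i, (v i).card = p i)
    (q : ℕ → Finset V) (hq : ∀ v ∈ S, ∀ i, v (s * i) = q i)
    (I : Finset ℕ) (B D : Finset V) (lab : V → ℕ)
    (hB : ∀ v ∈ S, ∀ x ∈ w \ u, x ∈ B → ent v x % s = lab x)
    (hD : ∀ v ∈ S, ∀ x ∈ w \ u, x ∉ B → x ∈ D → ent v x % t = lab x ∧ ∃ i ∈ I, x ∈ XX F v t i)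
    (hC : ∀ v ∈ S, ∀ x ∈ w \ u, x ∉ B → x ∉ D → (NN F v r s x).card = lab x)
    (bd : ℕ → ℕ)
    (hbd : ∀ i ∈ I, ∀ v ∈ S,
      ((S.filter (fun v' => v' i = v i)).image (fun v' => XX F v' t i)).card ≤ bd i) :
    S.card ≤ ∏ i ∈ range r, (if i ∈ I then bd i else 1) := by
  classical
  have hdec : ∀ v ∈ S, ∀ v' ∈ S, ∀ i,
      (∀ i' < i, (v' i', if i' ∈ I then XX F v' t i' else ∅)
        = (v i', if i' ∈ I then XX F v t i' else ∅)) → v' i = v i := by
    intro v hv v' hv' i hi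
    rcases Nat.eq_zero_or_pos i with rfl | hpos
    · rw [(hS v hv).2.1, (hS v' hv').2.1]
    · obtain ⟨i₀, rfl⟩ : ∃ j, i = j + 1 := ⟨i - 1, by omega⟩
      have heq : ∀ i ≤ i₀, v i = v' i := by
        intro i h
        exact (congrArg Prod.fst (hi i (by omega))).symm
      have hXX : ∀ i ≤ i₀, i ∈ I → XX F v t i = XX F v' t i := by
        intro i h hiI
        have := congrArg Prod.snd (hi i (by omega))
        simp only [hiI, if_true] at this
        exact this.symm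
      apply Finset.Subset.antisymm
      · exact half_decode (hS v' hv') (hS v hv) hs ht (fun i => by rw [hp v hv, hp v' hv'])
          (fun i => by rw [hq v hv, hq v' hv']) I B D lab (hB v' hv') (hB v hv) (hD v' hv')
          (hD v hv) (hC v' hv') (hC v hv) i₀ (fun i h => (heq i h).symm)
          (fun i h h' => (hXX i h h').symm)
      · exact half_decode (hS v hv) (hS v' hv') hs ht (fun i => by rw [hp v hv, hp v' hv'])
          (fun i => by rw [hq v hv, hq v' hv']) I B D lab (hB v hv) (hB v' hv') (hD v hv)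
          (hD v' hv') (hC v hv) (hC v' hv') i₀ heq hXX
  apply tree_count r S (fun v i => (v i, if i ∈ I then XX F v t i else ∅))
  · intro i hi v hv
    by_cases hiI : i ∈ I
    · simp only [hiI, if_true]
      refine le_trans ?_ (hbd i hiI v hv)
      refine le_trans (card_le_card (t := ((S.filter (fun v' => v' i = v i)).image
        (fun v' => XX F v' t i)).image (fun X => (v i, X))) ?_) card_image_le
      intro y hy
      rw [mem_image] at hy
      obtain ⟨v', hv', rfl⟩ := hy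
      rw [mem_filter] at hv'
      have h1 := hdec v hv v' hv'.1 i hv'.2
      rw [mem_image]
      refine ⟨XX F v' t i, mem_image_of_mem _ (mem_filter.2 ⟨hv'.1, h1⟩), by rw [h1]⟩
    · simp only [hiI, if_false]
      refine le_trans (card_le_card (t := {(v i, ∅)}) ?_) (by simp)
      intro y hy
      rw [mem_image] at hy
      obtain ⟨v', hv', rfl⟩ := hy
      rw [mem_filter] at hv'
      have h1 := hdec v hv v' hv'.1 i hv'.2
      rw [mem_singleton, h1]
  · intro v hv v' hv' h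
    funext i
    rcases Nat.lt_or_ge i r with hi | hi
    · exact congrArg Prod.fst (h i hi)
    · rw [(hS v hv).2.2.1 i hi, (hS v' hv').2.2.1 i hi]

end Core

end Pool.Agent.Helper884_MultiScale
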