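import Pool.Agent.Helper884_MultiScale.Growth

/-!
# The growth exponent vanishes
-/

set_option autoImplicit false

namespace Pool.Agent.Helper884_MultiScale

open Finset
open Pool.Agent.Helper884_ChainCount (pigeon)

lemma scale_count {m k k' K τ : ℕ} (hm : 1 ≤ m) (hkK : k ≤ K) {c α η : ℝ} (hη : 0 < η)
    (hc : Bd m (2 ^ (K - k)) c) :
    ∃ D : ℝ, 0 < D ∧ ∀ (N : ℕ) (F : Finset (Finset (Fin N))), ¬ Cfg m F →
      ∀ (u w : Finset (Fin N)) (S : Finset (ℕ → Finset (Fin N))),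
      (∀ v ∈ S, IsCh F (2 ^ K) u w v) →
      (∀ v ∈ S, ((Mid F v (2 ^ K) (2 ^ k) (2 ^ k') (2 ^ τ) u w).card : ℝ)
        ≤ α * ((w \ u).card : ℝ)) →
      (S.card : ℝ) ≤ D * 2 ^ ((c + 3 + (α + η) * k + k' + τ + m * (K + 1) / (2 ^ τ * η))
        * ((w \ u).card : ℝ)) := by
  classical
  obtain ⟨D0, hD0, hc⟩ := hc
  set r : ℕ := 2 ^ K with hr
  have hrpos : 0 < r := Nat.pow_pos (by norm_num)
  have hrk : r = 2 ^ (K - k) * 2 ^ k := by
    rw [hr, ← pow_add]; congr 1; omega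
  have hmpos : (0 : ℝ) < (m : ℝ) := by exact_mod_cast hm
  refine ⟨(r : ℝ) ^ r * D0 * 2 ^ r * ((m : ℝ) ^ r) ^ (1 / ((2 : ℝ) ^ τ * η)), by positivity, ?_⟩
  intro N F hF u w S hS hα
  rcases S.eq_empty_or_nonempty with rfl | ⟨v₀, hv₀⟩
  · simp only [card_empty, Nat.cast_zero]; positivity
  have hwF : w ∈ F := by
    have := (hS v₀ hv₀).2.2.2 r
    rwa [(hS v₀ hv₀).2.2.1 r le_rfl] at this
  set n := (w \ u).card with hn
  -- fix the profile
  let code : (ℕ → Finset (Fin N)) → (Fin r → ℕ) := fun v i => (v i).card - u.card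
  have hcode : ∀ v ∈ S, code v ∈ Fintype.piFinset (fun _ : Fin r => range (n + 1)) := by
    intro v hv
    simp only [Fintype.mem_piFinset, mem_range, code]
    intro i
    have h1 := card_le_card (sdiff_subset_sdiff ((hS v hv).sub i) (Subset.refl u))
    rw [card_sdiff_of_subset ((hS v hv).sup i)] at h1
    omega
  obtain ⟨g, -, hcard1⟩ := pigeon S (Fintype.piFinset (fun _ : Fin r => range (n + 1))) code
    hcode ⟨code v₀, hcode v₀ hv₀⟩
  set S' := S.filter (fun v => code v = g) with hS'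
  have hS'S : ∀ v ∈ S', v ∈ S ∧ code v = g := fun v hv => mem_filter.1 hv
  have hcard1' : S.card ≤ (n + 1) ^ r * S'.card := by
    refine le_trans hcard1 (Nat.mul_le_mul_right _ (le_of_eq ?_))
    rw [Fintype.card_piFinset]
    simp
  let p : ℕ → ℕ := fun i => if h : i < r then g ⟨i, h⟩ + u.card else w.card
  have hp : ∀ v ∈ S', ∀ i, (v i).card = p i := by
    intro v hv i
    obtain ⟨hvS, hvg⟩ := hS'S v hv
    simp only [p]
    split_ifs with h
    · rw [← hvg]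
      simp only [code]
      have := card_le_card ((hS v hvS).sup i)
      omega
    · rw [(hS v hvS).2.2.1 i (by omega)]
  -- fix the coarse chain
  let κ : (ℕ → Finset (Fin N)) → (ℕ → Finset (Fin N)) := fun v i => v (2 ^ k * i)
  have hS'ch : ∀ v ∈ S', IsCh F (2 ^ (K - k) * 2 ^ k) u w v := by
    intro v hv
    rw [← hrk]
    exact hS v (hS'S v hv).1
  have himg : ((S'.image κ).card : ℝ) ≤ D0 * 2 ^ (c * n) := by
    apply hc N F hF
    intro q hq
    obtain ⟨v, hv, rfl⟩ := mem_image.1 hq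
    exact (hS'ch v hv).coarse (Nat.pow_pos (by norm_num))
  set E : ℝ := 2 ^ r * 4 ^ n * (((2 ^ k : ℕ) : ℝ) ^ ((α + η) * n)
    * (((2 ^ k' : ℕ) : ℝ) * ((2 ^ τ : ℕ) : ℝ)) ^ n) *
    ((m : ℝ) ^ r * (((r : ℝ) + 1) ^ n) ^ m) ^ (1 / (((2 ^ τ : ℕ) : ℝ) * η)) with hE
  have hfib : ∀ q ∈ S'.image κ, ((S'.filter (fun v => κ v = q)).card : ℝ) ≤ E := by
    intro q _
    exact one_scale (F := F) (r := r) (s := 2 ^ k) (t := 2 ^ k') (u := u) (w := w) hm
      (Nat.pow_pos (by norm_num)) (Nat.pow_pos (by norm_num)) (Nat.pow_pos (by norm_num)) hF hwF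
      (S'.filter (fun v => κ v = q)) (fun v hv => hS v (hS'S v (mem_filter.1 hv).1).1) p
      (fun v hv => hp v (mem_filter.1 hv).1) q
      (fun v hv i => congrFun (mem_filter.1 hv).2 i) α η hη
      (fun v hv => hα v (hS'S v (mem_filter.1 hv).1).1)
  have hS'card : (S'.card : ℝ) ≤ D0 * 2 ^ (c * n) * E := by
    calc (S'.card : ℝ) = ∑ q ∈ S'.image κ, ((S'.filter (fun v => κ v = q)).card : ℝ) := by
          rw [Finset.card_eq_sum_card_image κ S']; push_cast; rfl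
      _ ≤ ∑ q ∈ S'.image κ, E := sum_le_sum hfib
      _ = ((S'.image κ).card : ℝ) * E := by simp
      _ ≤ D0 * 2 ^ (c * n) * E := mul_le_mul_of_nonneg_right himg (by positivity)
  -- estimates
  have e1 : (4 : ℝ) ^ n = 2 ^ ((2 : ℝ) * n) := by
    rw [Real.rpow_mul (by norm_num), Real.rpow_natCast]; norm_num
  have e2 : ((2 ^ k : ℕ) : ℝ) ^ ((α + η) * n) = 2 ^ ((α + η) * k * n) := by
    rw [Nat.cast_pow, Nat.cast_ofNat, ← Real.rpow_natCast, ← Real.rpow_mul (by norm_num)]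
    congr 1; ring
  have e3 : (((2 ^ k' : ℕ) : ℝ) * ((2 ^ τ : ℕ) : ℝ)) ^ n = 2 ^ (((k' : ℝ) + τ) * n) := by
    rw [Nat.cast_pow, Nat.cast_ofNat, Nat.cast_pow, Nat.cast_ofNat, ← pow_add, ← pow_mul,
      ← Real.rpow_natCast]
    congr 1; push_cast; ring
  have e4 : ((m : ℝ) ^ r * (((r : ℝ) + 1) ^ n) ^ m) ^ (1 / (((2 ^ τ : ℕ) : ℝ) * η))
      ≤ ((m : ℝ) ^ r) ^ (1 / ((2 : ℝ) ^ τ * η)) * 2 ^ ((m * (K + 1) / (2 ^ τ * η)) * (n : ℝ)) := by
    have hT2 : ((2 ^ τ : ℕ) : ℝ) = (2 : ℝ) ^ τ := by push_cast; rfl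
    rw [hT2, Real.mul_rpow (by positivity) (by positivity)]
    refine mul_le_mul_of_nonneg_left ?_ (by positivity)
    have h1 : (r : ℝ) + 1 ≤ 2 ^ (K + 1) := by
      have : r + 1 ≤ 2 ^ (K + 1) := by rw [pow_succ, ← hr]; omega
      exact_mod_cast this
    have h2 : (((r : ℝ) + 1) ^ n) ^ m ≤ 2 ^ ((((m : ℝ) * (K + 1)) * n)) := by
      calc (((r : ℝ) + 1) ^ n) ^ m ≤ (((2 : ℝ) ^ (K + 1)) ^ n) ^ m := by
            apply pow_le_pow_left₀ (by positivity)
            exact pow_le_pow_left₀ (by positivity) h1 n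
        _ = 2 ^ ((((m : ℝ) * (K + 1)) * n)) := by
            rw [← pow_mul, ← pow_mul, ← Real.rpow_natCast]
            congr 1; push_cast; ring
    calc ((((r : ℝ) + 1) ^ n) ^ m) ^ (1 / ((2 : ℝ) ^ τ * η))
        ≤ (2 ^ ((((m : ℝ) * (K + 1)) * n))) ^ (1 / ((2 : ℝ) ^ τ * η)) :=
          Real.rpow_le_rpow (by positivity) h2 (by positivity)
      _ = 2 ^ ((m * (K + 1) / (2 ^ τ * η)) * (n : ℝ)) := by
          rw [← Real.rpow_mul (by norm_num)]
          congr 1; field_simp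
  have e5 : (((n + 1) ^ r : ℕ) : ℝ) ≤ (r : ℝ) ^ r * 2 ^ ((1 : ℝ) * n) := by
    rw [one_mul, Real.rpow_natCast]
    exact_mod_cast poly_le hrpos n
  have hE2 : E ≤ 2 ^ r * ((m : ℝ) ^ r) ^ (1 / ((2 : ℝ) ^ τ * η)) *
      2 ^ ((2 + (α + η) * k + k' + τ + m * (K + 1) / (2 ^ τ * η)) * (n : ℝ)) := by
    have h3 : (2 : ℝ) ^ ((2 + (α + η) * k + k' + τ + m * (K + 1) / (2 ^ τ * η)) * (n : ℝ))
        = 2 ^ ((2 : ℝ) * n) * (2 ^ ((α + η) * k * n) * 2 ^ (((k' : ℝ) + τ) * n)) *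
          2 ^ ((m * (K + 1) / (2 ^ τ * η)) * (n : ℝ)) := by
      rw [← Real.rpow_add (by norm_num), ← Real.rpow_add (by norm_num),
        ← Real.rpow_add (by norm_num)]
      congr 1; ring
    rw [hE, e1, e2, e3, h3]
    calc _ ≤ 2 ^ r * 2 ^ ((2 : ℝ) * n) * (2 ^ ((α + η) * k * n) * 2 ^ (((k' : ℝ) + τ) * n)) *
          (((m : ℝ) ^ r) ^ (1 / ((2 : ℝ) ^ τ * η)) *
            2 ^ ((m * (K + 1) / (2 ^ τ * η)) * (n : ℝ))) :=
          mul_le_mul_of_nonneg_left e4 (by positivity)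
      _ = _ := by ring
  have hfinal : (2 : ℝ) ^ ((c + 3 + (α + η) * k + k' + τ + m * (K + 1) / (2 ^ τ * η)) * (n : ℝ))
      = 2 ^ ((1 : ℝ) * n) * 2 ^ (c * n) *
        2 ^ ((2 + (α + η) * k + k' + τ + m * (K + 1) / (2 ^ τ * η)) * (n : ℝ)) := by
    rw [← Real.rpow_add (by norm_num), ← Real.rpow_add (by norm_num)]
    congr 1; ring
  calc (S.card : ℝ) ≤ (((n + 1) ^ r : ℕ) : ℝ) * (S'.card : ℝ) := by exact_mod_cast hcard1'
    _ ≤ ((r : ℝ) ^ r * 2 ^ ((1 : ℝ) * n)) * (D0 * 2 ^ (c * n) * E) :=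
        mul_le_mul e5 hS'card (Nat.cast_nonneg _) (by positivity)
    _ ≤ ((r : ℝ) ^ r * 2 ^ ((1 : ℝ) * n)) * (D0 * 2 ^ (c * n) *
        (2 ^ r * ((m : ℝ) ^ r) ^ (1 / ((2 : ℝ) ^ τ * η)) *
      2 ^ ((2 + (α + η) * k + k' + τ + m * (K + 1) / (2 ^ τ * η)) * (n : ℝ)))) := by
        apply mul_le_mul_of_nonneg_left _ (by positivity)
        apply mul_le_mul_of_nonneg_left hE2 (by positivity)
    _ = _ := by rw [hfinal]; ring

/-- Some scale has few elements in the middle. -/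
lemma exists_scale {V : Type*} [DecidableEq V] {F : Finset (Finset V)} {r T R : ℕ}
    {u w : Finset V} {v : ℕ → Finset V} (h : IsCh F r u w v) (s : ℕ → ℕ)
    (hs : ∀ j < R, ∃ b, 0 < b ∧ s j = s (j + 1) * b) (α : ℝ) (hα : 1 ≤ R * α) (hR : 0 < R)
    (hbig : ∀ j < R, α * ((w \ u).card : ℝ) < ((Mid F v r (s j) (s (j + 1)) T u w).card : ℝ)) :
    False := by
  classical
  have hanti : ∀ x, ∀ j j', j ≤ j' → j' ≤ R →
      (NN F v r (s j') x).card ≤ (NN F v r (s j) x).card := by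
    intro x j j' hjj'
    induction j', hjj' using Nat.le_induction with
    | base => intro _; exact le_rfl
    | succ j' _ ih =>
      intro hR'
      obtain ⟨b, hb, hsb⟩ := hs j' (by omega)
      exact (NN_mono h hb hsb x).trans (ih (by omega))
  have hdisj : ∀ j ∈ range R, ∀ j' ∈ range R, j ≠ j' →
      Disjoint (Mid F v r (s j) (s (j + 1)) T u w) (Mid F v r (s j') (s (j' + 1)) T u w) := by
    have key : ∀ j j', j < j' → j' < R →
        Disjoint (Mid F v r (s j) (s (j + 1)) T u w) (Mid F v r (s j') (s (j' + 1)) T u w) := by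
      intro j j' hjj' hj'
      rw [Finset.disjoint_left]
      intro x hx hx'
      simp only [Mid, mem_filter] at hx hx'
      have := hanti x (j + 1) j' hjj' hj'.le
      omega
    intro j hj j' hj' hne
    rw [mem_range] at hj hj'
    rcases Nat.lt_or_gt_of_ne hne with h1 | h1
    · exact key j j' h1 hj'
    · exact (key j' j h1 hj).symm
  have h1 : ∑ j ∈ range R, (Mid F v r (s j) (s (j + 1)) T u w).card ≤ (w \ u).card := by
    rw [← Finset.card_biUnion hdisj]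
    apply card_le_card
    intro x hx
    rw [mem_biUnion] at hx
    obtain ⟨j, _, hxj⟩ := hx
    exact (mem_filter.1 hxj).1
  have h2 : ∑ j ∈ range R, α * ((w \ u).card : ℝ)
      < ∑ j ∈ range R, ((Mid F v r (s j) (s (j + 1)) T u w).card : ℝ) := by
    apply Finset.sum_lt_sum_of_nonempty
    · exact ⟨0, mem_range.2 hR⟩
    · intro j hj
      exact hbig j (mem_range.1 hj)
  have h3 : ∑ j ∈ range R, ((Mid F v r (s j) (s (j + 1)) T u w).card : ℝ)
      ≤ ((w \ u).card : ℝ) := by exact_mod_cast h1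
  rw [Finset.sum_const, card_range, nsmul_eq_mul] at h2
  have h4 : (1 : ℝ) * ((w \ u).card : ℝ) ≤ (R * α) * ((w \ u).card : ℝ) :=
    mul_le_mul_of_nonneg_right hα (Nat.cast_nonneg _)
  linarith

theorem lim_eq_zero {m : ℕ} (hm : 1 ≤ m) : (beta_subadditive m).lim = 0 := by
  classical
  have htend := (beta_subadditive m).tendsto_lim (beta_bdd m)
  set μ := (beta_subadditive m).lim with hμ
  have hμ0 : 0 ≤ μ :=
    ge_of_tendsto' htend (fun n => div_nonneg (beta_nonneg m n) (Nat.cast_nonneg n))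
  by_contra hne
  have hμpos : 0 < μ := lt_of_le_of_ne hμ0 (Ne.symm hne)
  -- parameters
  obtain ⟨b, hb⟩ : ∃ b : ℕ, 8 / μ ≤ b := exists_nat_ge _
  obtain ⟨R, hR⟩ : ∃ R : ℕ, 4 / μ ≤ R := exists_nat_ge _
  have hbR : 0 < (b : ℝ) := lt_of_lt_of_le (by positivity) hb
  have hRR : 0 < (R : ℝ) := lt_of_lt_of_le (by positivity) hR
  have hbpos : 0 < b := by exact_mod_cast hbR
  have hRpos : 0 < R := by exact_mod_cast hRR
  set B : ℝ := (b : ℝ) ^ R with hB
  have hBpos : 0 < B := by positivity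
  have hB1 : 1 ≤ B := one_le_pow₀ (by exact_mod_cast hbpos)
  have hmR : (1 : ℝ) ≤ m := by exact_mod_cast hm
  obtain ⟨τ, hτ⟩ : ∃ τ : ℕ, 256 * m * B / μ ^ 2 ≤ τ := exists_nat_ge _
  have hτ2 : 256 * m * B / μ ^ 2 ≤ (2 : ℝ) ^ τ := by
    have h1 : τ < 2 ^ τ := Nat.lt_two_pow_self
    have h2 : (τ : ℝ) ≤ (2 : ℝ) ^ τ := by exact_mod_cast h1.le
    linarith
  set ε : ℝ := μ / (16 * B) with hε
  have hεpos : 0 < ε := by positivity
  obtain ⟨K₀, hK₀⟩ : ∃ K₀ : ℕ, ∀ K ≥ K₀, beta m K / K < μ + ε := by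
    have h1 := htend.eventually (gt_mem_nhds (show μ < μ + ε by linarith))
    exact Filter.eventually_atTop.1 h1
  obtain ⟨L₁, hL₁⟩ : ∃ L₁ : ℕ, 4 * (4 + τ) / μ ≤ L₁ := exists_nat_ge _
  set L : ℕ := K₀ + L₁ + 1 with hL
  have hL1 : (L₁ : ℝ) ≤ (L : ℝ) := by
    have : L₁ ≤ L := by omega
    exact_mod_cast this
  have hLμ : 4 * (4 + (τ : ℝ)) ≤ μ * L := by
    rw [div_le_iff₀ hμpos] at hL₁
    nlinarith
  set K : ℕ := 2 * L * b ^ R with hK
  have hKR : (K : ℝ) = 2 * L * B := by rw [hK, hB]; push_cast; ring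
  have hLpos : (0 : ℝ) < L := by
    have : 0 < L := by omega
    exact_mod_cast this
  have hKL : 2 * (L : ℝ) ≤ K := by
    rw [hKR]; nlinarith
  have hK1 : (1 : ℝ) ≤ K := by
    have h1 : (1 : ℝ) ≤ L := by
      have : 1 ≤ L := by omega
      exact_mod_cast this
    linarith
  let kk : ℕ → ℕ := fun j => L * b ^ (R - j)
  have hkk : ∀ j < R, kk j = kk (j + 1) * b := by
    intro j hj
    simp only [kk]
    have : R - j = (R - (j + 1)) + 1 := by omega
    rw [this, pow_succ]; ring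
  have hkkL : ∀ j, L ≤ kk j := fun j => Nat.le_mul_of_pos_right _ (Nat.pow_pos hbpos)
  have hkkK : ∀ j, kk j + L ≤ K := by
    intro j
    have h1 : kk j ≤ L * b ^ R := Nat.mul_le_mul_left _ (Nat.pow_le_pow_right hbpos (by omega))
    have h2 : L ≤ L * b ^ R := Nat.le_mul_of_pos_right _ (Nat.pow_pos hbpos)
    have h3 : K = L * b ^ R + L * b ^ R := by rw [hK]; ring
    omega
  -- bound at each scale
  have hscale : ∀ j < R, ∃ D : ℝ, 0 < D ∧ ∀ (N : ℕ) (F : Finset (Finset (Fin N))), ¬ Cfg m F →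
      ∀ (u w : Finset (Fin N)) (S : Finset (ℕ → Finset (Fin N))),
      (∀ v ∈ S, IsCh F (2 ^ K) u w v) →
      (∀ v ∈ S, ((Mid F v (2 ^ K) (2 ^ (kk j)) (2 ^ (kk (j + 1))) (2 ^ τ) u w).card : ℝ)
        ≤ μ / 4 * ((w \ u).card : ℝ)) →
      (S.card : ℝ) ≤ D * 2 ^ ((μ * K - 1) * ((w \ u).card : ℝ)) := by
    intro j hj
    have h1 : beta m (K - kk j) < (μ + ε) * ((K - kk j : ℕ) : ℝ) := by
      have h2 := hK₀ (K - kk j) (by have := hkkK j; omega)
      rw [div_lt_iff₀] at h2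
      · exact h2
      · have : 0 < K - kk j := by have := hkkK j; omega
        exact_mod_cast this
    have hbd := Bd_of_beta_lt h1
    obtain ⟨D, hD, hcount⟩ := scale_count (m := m) (k := kk j) (k' := kk (j + 1)) (K := K)
      (τ := τ) (α := μ / 4) (η := μ / 8) hm (by have := hkkK j; omega) (by positivity) hbd
    refine ⟨D, hD, ?_⟩
    intro N F hF u w S hS hα
    refine (hcount N F hF u w S hS hα).trans ?_
    apply mul_le_mul_of_nonneg_left _ hD.le
    apply Real.rpow_le_rpow_of_exponent_le (by norm_num)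
    apply mul_le_mul_of_nonneg_right _ (Nat.cast_nonneg _)
    -- the exponent estimate
    have hkj : ((K - kk j : ℕ) : ℝ) = (K : ℝ) - kk j := by
      rw [Nat.cast_sub]
      have := hkkK j; omega
    rw [hkj]
    have hkj1 : (kk j : ℝ) = kk (j + 1) * b := by exact_mod_cast hkk j hj
    have hk0 : (0 : ℝ) ≤ kk (j + 1) := Nat.cast_nonneg _
    have hk2 : (kk (j + 1) : ℝ) ≤ μ / 8 * kk j := by
      rw [hkj1]
      have h3 : 8 ≤ b * μ := by rwa [div_le_iff₀ hμpos] at hb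
      nlinarith
    have hk3 : (L : ℝ) ≤ kk j := by exact_mod_cast hkkL j
    have hεK : ε * K = μ * L / 8 := by
      rw [hε, hKR]; field_simp; ring
    have hm2 : m * ((K : ℝ) + 1) / (2 ^ τ * (μ / 8)) ≤ μ * L / 8 := by
      rw [div_le_iff₀ (by positivity)]
      have h4 : 256 * m * B ≤ 2 ^ τ * μ ^ 2 := by
        rwa [div_le_iff₀ (by positivity)] at hτ2
      have h5 : (m : ℝ) * (K + 1) ≤ m * (2 * K) := by
        apply mul_le_mul_of_nonneg_left _ (by linarith)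
        linarith
      calc (m : ℝ) * (K + 1) ≤ m * (2 * K) := h5
        _ = (256 * m * B) * L / 64 := by rw [hKR]; ring
        _ ≤ (2 ^ τ * μ ^ 2) * L / 64 := by
            apply div_le_div_of_nonneg_right _ (by norm_num)
            exact mul_le_mul_of_nonneg_right h4 hLpos.le
        _ = μ * L / 8 * (2 ^ τ * (μ / 8)) := by ring
    have hε2 : ε * ((K : ℝ) - kk j) ≤ ε * K := by
      apply mul_le_mul_of_nonneg_left _ hεpos.le
      linarith
    have hμk : μ * L ≤ μ * kk j := mul_le_mul_of_nonneg_left hk3 hμpos.le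
    nlinarith
  choose D hDpos hDbound using hscale
  -- the total bound
  have htotal : Bd m (2 ^ K) (μ * K - 1) := by
    refine ⟨∑ j : Fin R, D j.1 j.2, ?_, ?_⟩
    · apply Finset.sum_pos
      · intro j _; exact hDpos j.1 j.2
      · exact ⟨⟨0, hRpos⟩, mem_univ _⟩
    · intro N F hF u w S hS
      have hcov : S ⊆ (univ : Finset (Fin R)).biUnion (fun j => S.filter (fun v =>
          ((Mid F v (2 ^ K) (2 ^ (kk j)) (2 ^ (kk (j + 1))) (2 ^ τ) u w).card : ℝ)
            ≤ μ / 4 * ((w \ u).card : ℝ))) := by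
        intro v hv
        by_contra hno
        apply exists_scale (hS v hv) (fun j => 2 ^ (kk j)) (R := R) (T := 2 ^ τ)
          (α := μ / 4) _ _ hRpos
        · intro j hj
          by_contra hle
          push Not at hle
          apply hno
          rw [mem_biUnion]
          exact ⟨⟨j, hj⟩, mem_univ _, mem_filter.2 ⟨hv, hle⟩⟩
        · intro j hj
          refine ⟨2 ^ (kk j - kk (j + 1)), Nat.pow_pos (by norm_num), ?_⟩
          have h1 : kk (j + 1) ≤ kk j := by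
            rw [hkk j hj]; exact Nat.le_mul_of_pos_right _ hbpos
          rw [← pow_add]
          congr 1; omega
        · rw [div_le_iff₀ hμpos] at hR
          linarith
      have hcard : (S.card : ℝ) ≤ ∑ j : Fin R, ((S.filter (fun v =>
          ((Mid F v (2 ^ K) (2 ^ (kk j)) (2 ^ (kk (j + 1))) (2 ^ τ) u w).card : ℝ)
            ≤ μ / 4 * ((w \ u).card : ℝ))).card : ℝ) := by
        exact_mod_cast (card_le_card hcov).trans card_biUnion_le
      refine hcard.trans ?_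
      rw [Finset.sum_mul]
      apply Finset.sum_le_sum
      intro j _
      exact hDbound j.1 j.2 N F hF u w _ (fun v hv => hS v (mem_filter.1 hv).1)
        (fun v hv => (mem_filter.1 hv).2)
  have hnn : 0 ≤ μ * K - 1 := by
    have h1 : μ * L ≤ μ * K := by
      apply mul_le_mul_of_nonneg_left _ hμpos.le
      linarith
    have h2 : (0 : ℝ) ≤ τ := Nat.cast_nonneg _
    linarith
  have h1 := beta_le hnn htotal
  have h2 := (beta_subadditive m).lim_le_div (beta_bdd m) (n := K) (by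
    rintro h0
    rw [h0] at hK1
    norm_num at hK1)
  rw [← hμ, le_div_iff₀ (by linarith)] at h2
  linarith

/-- **Vanishing exponent.** -/
theorem eventually_bd {m : ℕ} (hm : 1 ≤ m) {ε : ℝ} (hε : 0 < ε) :
    ∃ K₀ : ℕ, ∀ K ≥ K₀, Bd m (2 ^ K) (ε * K) := by
  have htend := (beta_subadditive m).tendsto_lim (beta_bdd m)
  rw [lim_eq_zero hm] at htend
  have h1 := htend.eventually (gt_mem_nhds hε)
  obtain ⟨K₀, hK₀⟩ := Filter.eventually_atTop.1 h1
  refine ⟨K₀ + 1, fun K hK => ?_⟩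
  have h2 := hK₀ K (by omega)
  rw [div_lt_iff₀ (by
    have : 0 < K := by omega
    exact_mod_cast this)] at h2
  exact Bd_of_beta_lt h2

end Pool.Agent.Helper884_MultiScale
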